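import Mathlib

set_option autoImplicit false

/-!
# ZRT (helper26): rotation angles of an isometry of a four-dimensional euclidean space
-/

open Module

namespace Pool.Agent.ZRT.H26

section

variable {V : Type} [AddCommGroup V] [Module ℝ V] [FiniteDimensional ℝ V]

/-- An isometry whose square has no fixed vectors: eigenspaces of `A + A⁻¹` have dimension `≥ 2`. -/
theorem two_le (B : V →ₗ[ℝ] V →ₗ[ℝ] ℝ) (pos : ∀ v, v ≠ 0 → 0 < B v v) (A : V →ₗ[ℝ] V)
    (hA : ∀ v w, B (A v) (A w) = B v w) (h2 : ∀ v, v ≠ 0 → A (A v) ≠ v) (S : V →ₗ[ℝ] V)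
    (hSA : ∀ v, S (A v) = A (S v)) (μ : ℝ) (b : V) (hb : b ≠ 0) (hSb : S b = μ • b) :
    2 ≤ finrank ℝ (End.eigenspace S μ) := by
  by_contra hc
  have hc1 : finrank ℝ (End.eigenspace S μ) ≤ 1 := by omega
  rw [finrank_le_one_iff] at hc1
  obtain ⟨v0, hv0⟩ := hc1
  have hbm : b ∈ End.eigenspace S μ := End.mem_eigenspace_iff.mpr hSb
  have hAbm : A b ∈ End.eigenspace S μ := by
    rw [End.mem_eigenspace_iff, hSA, hSb, map_smul]
  obtain ⟨c, hc'⟩ := hv0 ⟨b, hbm⟩
  obtain ⟨d, hd'⟩ := hv0 ⟨A b, hAbm⟩
  have hc2 : c • (v0 : V) = b := congrArg Subtype.val hc'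
  have hd2 : d • (v0 : V) = A b := congrArg Subtype.val hd'
  have hc0 : c ≠ 0 := by
    rintro rfl
    rw [zero_smul] at hc2
    exact hb hc2.symm
  have hAb : A b = (d / c) • b := by
    rw [← hd2, ← hc2, smul_smul, div_mul_cancel₀ _ hc0]
  have h3 := hA b b
  rw [hAb] at h3
  simp only [map_smul, LinearMap.smul_apply, smul_eq_mul] at h3
  have hpb := pos b hb
  have h4 : (d / c) * (d / c) = 1 := by
    have : ((d / c) * (d / c) - 1) * B b b = 0 := by linear_combination h3
    rcases mul_eq_zero.mp this with h | h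
    · linarith
    · exact absurd h hpb.ne'
  apply h2 b hb
  rw [hAb, map_smul, hAb, smul_smul, h4, one_smul]

/-- The angles. -/
theorem angles (hV : finrank ℝ V = 4) (B : V →ₗ[ℝ] V →ₗ[ℝ] ℝ) (symm : ∀ v w, B v w = B w v)
    (pos : ∀ v, v ≠ 0 → 0 < B v v) (A : V →ₗ[ℝ] V) (hA : ∀ v w, B (A v) (A w) = B v w)
    (h2 : ∀ v, v ≠ 0 → A (A v) ≠ v) :
    ∃ α β : ℝ, ∀ (k : ℕ) (v : V),
      min (Real.cos (k * α)) (Real.cos (k * β)) * B v v ≤ B v ((A ^ k) v) := by
  have nonneg : ∀ v, 0 ≤ B v v := by
    intro v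
    by_cases hv : v = 0
    · simp [hv]
    · exact (pos v hv).le
  let core : InnerProductSpace.Core ℝ V :=
    { inner := fun v w => B v w
      conj_inner_symm := fun v w => by simp [symm v w]
      re_inner_nonneg := fun v => by simpa using nonneg v
      add_left := fun u v w => by simp
      smul_left := fun v w r => by simp
      definite := fun v hv => by
        by_contra h
        exact absurd hv (pos v h).ne' }
  letI : NormedAddCommGroup V := core.toNormedAddCommGroup
  letI : InnerProductSpace ℝ V := InnerProductSpace.ofCore core.toCore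
  have hin : ∀ v w : V, inner ℝ v w = B v w := fun _ _ => rfl
  have hinj : Function.Injective A := by
    intro v w hvw
    by_contra hne
    have h1 := hA (v - w) (v - w)
    rw [map_sub A, hvw, sub_self] at h1
    simp only [map_zero, LinearMap.zero_apply] at h1
    exact absurd h1 (pos _ (sub_ne_zero.mpr hne)).ne
  let Ae : V ≃ₗ[ℝ] V := LinearEquiv.ofInjectiveEndo A hinj
  let A' : V →ₗ[ℝ] V := (Ae.symm : V →ₗ[ℝ] V)
  have hAA' : ∀ v, A (A' v) = v := fun v => Ae.apply_symm_apply v
  have hA'A : ∀ v, A' (A v) = v := fun v => Ae.symm_apply_apply v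
  have hadj : ∀ v w, B v (A' w) = B (A v) w := by
    intro v w
    rw [← hA v (A' w), hAA']
  have hadj' : ∀ v w, B (A' v) w = B v (A w) := by
    intro v w
    rw [← hA (A' v) w, hAA']
  have hadjk : ∀ (k : ℕ) (v w : V), B v ((A' ^ k) w) = B ((A ^ k) v) w := by
    intro k
    induction k with
    | zero => intro v w; simp
    | succ k ih =>
      intro v w
      rw [pow_succ', Module.End.mul_apply, hadj, ih, pow_succ, Module.End.mul_apply]
  let S : V →ₗ[ℝ] V := A + A'
  have hSA : ∀ v, S (A v) = A (S v) := by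
    intro v
    simp only [S, LinearMap.add_apply, map_add, hAA', hA'A]
  have hS : S.IsSymmetric := by
    intro v w
    rw [hin, hin]
    simp only [S, LinearMap.add_apply, map_add]
    rw [hadj v w, hadj' v w]
    ring
  let b := hS.eigenvectorBasis hV
  let s : Fin 4 → ℝ := hS.eigenvalues hV
  have hSb : ∀ i, S (b i) = s i • b i := fun i => hS.apply_eigenvectorBasis hV i
  have hb1 : ∀ i, B (b i) (b i) = 1 := by
    intro i
    rw [← hin, real_inner_self_eq_norm_sq, b.norm_eq_one i]
    norm_num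
  have hb0 : ∀ i, b i ≠ 0 := fun i h => by
    have := hb1 i
    rw [h] at this
    simp at this
  -- the eigenvalues are in `[-2,2]`
  have hsi : ∀ i, s i = 2 * B (b i) (A (b i)) := by
    intro i
    have h1 : B (b i) (S (b i)) = s i := by
      rw [hSb i, map_smul, smul_eq_mul, hb1 i, mul_one]
    rw [← h1]
    simp only [S, LinearMap.add_apply, map_add]
    rw [hadj, symm (A (b i)) (b i)]
    ring
  have hle : ∀ i, -1 ≤ s i / 2 ∧ s i / 2 ≤ 1 := by
    intro i
    have h1 := nonneg (b i + A (b i))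
    have h2 := nonneg (b i - A (b i))
    simp only [map_add, map_sub, LinearMap.add_apply, LinearMap.sub_apply] at h1 h2
    rw [hA, symm (A (b i)) (b i), hb1 i] at h1 h2
    rw [hsi i]
    constructor <;> linarith
  let θ : Fin 4 → ℝ := fun i => Real.arccos (s i / 2)
  have hcos : ∀ i, Real.cos (θ i) = s i / 2 := fun i => Real.cos_arccos (hle i).1 (hle i).2
  -- powers
  have hpow : ∀ (k : ℕ) (v : V), S ((A ^ (k + 1)) v + (A' ^ (k + 1)) v) =
      ((A ^ (k + 2)) v + (A' ^ (k + 2)) v) + ((A ^ k) v + (A' ^ k) v) := by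
    intro k v
    have e1 : (A ^ (k + 1)) v = A ((A ^ k) v) := by rw [pow_succ', Module.End.mul_apply]
    have e2 : (A' ^ (k + 1)) v = A' ((A' ^ k) v) := by rw [pow_succ', Module.End.mul_apply]
    have e3 : (A ^ (k + 2)) v = A (A ((A ^ k) v)) := by
      rw [pow_succ', Module.End.mul_apply, e1]
    have e4 : (A' ^ (k + 2)) v = A' (A' ((A' ^ k) v)) := by
      rw [pow_succ', Module.End.mul_apply, e2]
    rw [e3, e4, e1, e2]
    simp only [S, LinearMap.add_apply, map_add, hAA', hA'A]
    abel
  have hU : ∀ (i : Fin 4) (k : ℕ), (A ^ k) (b i) + (A' ^ k) (b i) = (2 * Real.cos (k * θ i)) • b i ∧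
      (A ^ (k + 1)) (b i) + (A' ^ (k + 1)) (b i) = (2 * Real.cos ((k + 1 : ℕ) * θ i)) • b i := by
    intro i k
    induction k with
    | zero =>
      constructor
      · simp [two_smul]
      · have h := hSb i
        simp only [S, LinearMap.add_apply] at h
        simp only [zero_add, pow_one, Nat.cast_one, one_mul]
        rw [h, hcos i]
        congr 1
        ring
    | succ k ih =>
      obtain ⟨ih1, ih2⟩ := ih
      refine ⟨ih2, ?_⟩
      have h := hpow k (b i)
      rw [ih1, ih2, map_smul, hSb i] at h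
      have h' : (A ^ (k + 1 + 1)) (b i) + (A' ^ (k + 1 + 1)) (b i) =
          (2 * Real.cos ((k + 1 : ℕ) * θ i)) • s i • b i - (2 * Real.cos (k * θ i)) • b i :=
        (sub_eq_of_eq_add h).symm
      rw [h', smul_smul, ← sub_smul]
      congr 1
      have e1 : s i = 2 * Real.cos (θ i) := by rw [hcos i]; ring
      have e2 : Real.cos ((k + 1 + 1 : ℕ) * θ i) =
          2 * Real.cos ((k + 1 : ℕ) * θ i) * Real.cos (θ i) - Real.cos (k * θ i) := by
        have t1 : ((k + 1 + 1 : ℕ) : ℝ) * θ i = ((k + 1 : ℕ) : ℝ) * θ i + θ i := by push_cast; ring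
        have t2 : (k : ℝ) * θ i = ((k + 1 : ℕ) : ℝ) * θ i - θ i := by push_cast; ring
        rw [t1, t2, Real.cos_add, Real.cos_sub]
        ring
      rw [e1, e2]
      ring
  -- at most two eigenvalues
  obtain ⟨j, hj⟩ : ∃ j : Fin 4, ∀ i, s i = s 0 ∨ s i = s j := by
    by_cases hall : ∀ i, s i = s 0
    · exact ⟨0, fun i => Or.inl (hall i)⟩
    push Not at hall
    obtain ⟨j, hj⟩ := hall
    refine ⟨j, fun i => ?_⟩
    by_contra hi
    push Not at hi
    obtain ⟨hi0, hij⟩ := hi
    have d0 := two_le B pos A hA h2 S hSA (s 0) (b 0) (hb0 0) (hSb 0)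
    have d1 := two_le B pos A hA h2 S hSA (s j) (b j) (hb0 j) (hSb j)
    have hdis : End.eigenspace S (s 0) ⊓ End.eigenspace S (s j) = ⊥ := by
      rw [eq_bot_iff]
      rintro v ⟨hv0, hv1⟩
      have e0 : S v = s 0 • v := End.mem_eigenspace_iff.mp hv0
      have e1 : S v = s j • v := End.mem_eigenspace_iff.mp hv1
      have e2 : (s j - s 0) • v = 0 := by rw [sub_smul, ← e0, ← e1, sub_self]
      rcases smul_eq_zero.mp e2 with h | h
      · exact absurd (sub_eq_zero.mp h) hj
      · simpa using h
    have hf := Submodule.finrank_sup_add_finrank_inf_eq (End.eigenspace S (s 0))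
      (End.eigenspace S (s j))
    rw [hdis, finrank_bot, add_zero] at hf
    have htop : End.eigenspace S (s 0) ⊔ End.eigenspace S (s j) = ⊤ := by
      apply Submodule.eq_top_of_finrank_eq
      have hle4 := Submodule.finrank_le (End.eigenspace S (s 0) ⊔ End.eigenspace S (s j))
      omega
    have hm : b i ∈ End.eigenspace S (s 0) ⊔ End.eigenspace S (s j) := by rw [htop]; trivial
    obtain ⟨v0, hv0, v1, hv1, hv⟩ := Submodule.mem_sup.mp hm
    have e0 : S v0 = s 0 • v0 := End.mem_eigenspace_iff.mp hv0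
    have e1 : S v1 = s j • v1 := End.mem_eigenspace_iff.mp hv1
    -- orthogonality
    have hBS : ∀ x y, B (S x) y = B x (S y) := fun x y => hS x y
    have o0 : B (b i) v0 = 0 := by
      have h := hBS (b i) v0
      rw [hSb i, e0] at h
      simp only [map_smul, LinearMap.smul_apply, smul_eq_mul] at h
      have : (s i - s 0) * B (b i) v0 = 0 := by linear_combination h
      rcases mul_eq_zero.mp this with h' | h'
      · exact absurd (sub_eq_zero.mp h') hi0
      · exact h'
    have o1 : B (b i) v1 = 0 := by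
      have h := hBS (b i) v1
      rw [hSb i, e1] at h
      simp only [map_smul, LinearMap.smul_apply, smul_eq_mul] at h
      have : (s i - s j) * B (b i) v1 = 0 := by linear_combination h
      rcases mul_eq_zero.mp this with h' | h'
      · exact absurd (sub_eq_zero.mp h') hij
      · exact h'
    have h5 := hb1 i
    have h6 : B (b i) (b i) = B (b i) v0 + B (b i) v1 := by
      conv_lhs => rw [← hv]
      rw [hv, ← hv, map_add]
    rw [h6, o0, o1] at h5
    norm_num at h5
  refine ⟨θ 0, θ j, fun k v => ?_⟩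
  have hθ : ∀ i, θ i = θ 0 ∨ θ i = θ j := by
    intro i
    rcases hj i with h | h
    · left; simp only [θ, h]
    · right; simp only [θ, h]
  have hmin : ∀ i, min (Real.cos (k * θ 0)) (Real.cos (k * θ j)) ≤ Real.cos (k * θ i) := by
    intro i
    rcases hθ i with h | h
    · rw [h]; exact min_le_left _ _
    · rw [h]; exact min_le_right _ _
  have e1 : B v v = ∑ i, B v (b i) * B (b i) v := by
    have := b.sum_inner_mul_inner v v
    simp only [hin] at this
    exact this.symm
  have e2 : B v ((A ^ k) v) = ∑ i, Real.cos (k * θ i) * (B v (b i) * B (b i) v) := by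
    have h1 : B v ((A ^ k) v) = B v ((A ^ k) v + (A' ^ k) v) / 2 := by
      rw [map_add, hadjk k v v, symm ((A ^ k) v) v]
      ring
    have h2 := b.sum_inner_mul_inner v ((A ^ k) v + (A' ^ k) v)
    simp only [hin] at h2
    rw [h1, ← h2, Finset.sum_div]
    refine Finset.sum_congr rfl fun i _ => ?_
    have h3 : B (b i) ((A ^ k) v + (A' ^ k) v) = B ((A ^ k) (b i) + (A' ^ k) (b i)) v := by
      rw [map_add, hadjk k (b i) v, map_add, LinearMap.add_apply]
      rw [symm (b i) ((A ^ k) v), symm ((A' ^ k) (b i)) v, hadjk k v (b i)]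
      ring
    rw [h3, (hU i k).1, map_smul, LinearMap.smul_apply, smul_eq_mul]
    ring
  rw [e1, e2, Finset.mul_sum]
  refine Finset.sum_le_sum fun i _ => ?_
  refine mul_le_mul_of_nonneg_right (hmin i) ?_
  rw [symm v (b i)]
  exact mul_self_nonneg _

end

end Pool.Agent.ZRT.H26
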