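import Pool.Agent.ZRT.StmtsA
import Pool.Agent.Helper26_MVS.All

/-!
# ZRT, row FIN (helper26): the final theorem
-/

noncomputable section

open scoped ContDiff Topology RealInnerProductSpace
open Set MeasureTheory

namespace Pool.Agent.ZRT.H26

open Pool.Agent.RF Pool.Agent.MVS Pool.Agent.ZRT Pool.Agent.SecondKind Pool.Agent.MinVolSphere

theorem fin (ylb : YlbStatement) (yro : YroStatement) (ypw : YpwStatement)
    (ydi : YdiStatement) : FinStatement := by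
  have h2 : ∀ (α β : ℝ) (k : ℕ) (i j : ℤ),
      0 < |k * α - i * (2 * Real.pi)| → |k * α - i * (2 * Real.pi)| ≤ 2 / 5 →
      0 < |k * β - j * (2 * Real.pi)| → |k * β - j * (2 * Real.pi)| ≤ 2 / 5 →
      sInf {V : ℝ | ∃ g : Form 4, IsMetric g ∧ AbsSecLeOne g ∧ RotInvariant α β g ∧ vol g = V} =
        8 * Real.pi ^ 2 / 3 := by
    intro α β k i j ha ha' hb hb'
    obtain ⟨hr1, hr2, hr3, hr4⟩ := Pool.Agent.MVS.H26.rnd_
    have hmem : 8 * Real.pi ^ 2 / 3 ∈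
        {V : ℝ | ∃ g : Form 4, IsMetric g ∧ AbsSecLeOne g ∧ RotInvariant α β g ∧ vol g = V} :=
      ⟨_, hr1, hr2, hr3 α β 1, hr4⟩
    have hlow : ∀ V ∈
        {V : ℝ | ∃ g : Form 4, IsMetric g ∧ AbsSecLeOne g ∧ RotInvariant α β g ∧ vol g = V},
        8 * Real.pi ^ 2 / 3 ≤ V := by
      rintro V ⟨g, hg, hK, hinv, rfl⟩
      obtain ⟨hiso, hf1, hf2⟩ := yro g _ _ hg ha ha' hb hb' (ypw g α β k i j hinv)
      refine ylb g _ _ _ hg hK hiso ?_ hf1 hf2
      intro h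
      have h1 := congrFun h 4
      have h2 : (1 : ℝ) = -1 := h1
      norm_num at h2
    exact le_antisymm (csInf_le ⟨_, hlow⟩ hmem) (le_csInf ⟨_, hmem⟩ hlow)
  refine ⟨ylb, h2, ?_⟩
  intro n a b hn ha hb
  obtain ⟨k, i, j, h3, h4, h5, h6⟩ := ydi n a b hn ha hb
  exact h2 _ _ k i j h3 h4 h5 h6

end Pool.Agent.ZRT.H26
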