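import Pool.Agent.ZRT.StmtsA

/-!
# ZRT, row XDE (helper26): `exp_m` is a local diffeomorphism on the ball of radius `π`
-/

set_option autoImplicit false

noncomputable section

open scoped ContDiff Topology RealInnerProductSpace
open Set MeasureTheory

namespace Pool.Agent.ZRT.H26

open Pool.Agent.RF Pool.Agent.MVS Pool.Agent.ZRT

theorem xde (xb1 : Xb1Statement) (xlo : XloStatement) : XdeStatement := by
  intro G ex hG hS hE m hm v hv
  obtain ⟨-, h2, -⟩ := xb1 G ex hG hE m hm
  have hpos := hG.metric.pos m hm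
  have hnn : ∀ w, 0 ≤ G m w w := by
    intro w
    by_cases hw : w = 0
    · rw [hw]; simp
    · exact (hpos w hw).le
  have hfin : ∀ A : E5 →L[ℝ] E5, (∀ w, A w = 0 → w = 0) → Function.Bijective A := by
    intro A hA
    have hinj : Function.Injective (A : E5 →ₗ[ℝ] E5) := by
      rw [injective_iff_map_eq_zero]
      exact hA
    exact ⟨hinj, LinearMap.surjective_of_injective hinj⟩
  by_cases hv0 : v = 0
  · subst hv0
    have h0 : nm G m (0 : E5) = 0 := by simp [nm]
    refine ⟨fun w => by rw [h0]; simp, hfin _ fun w hw => ?_⟩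
    have h3 := h2 w
    rw [dE, hw] at h3
    exact h3.symm
  · have hr : 0 < nm G m v := Real.sqrt_pos.2 (hpos v hv0)
    obtain ⟨r, hrd⟩ : ∃ r : ℝ, r = nm G m v := ⟨_, rfl⟩
    rw [← hrd] at hr hv ⊢
    have hr2 : r ^ 2 = G m v v := by
      rw [hrd, nm, Real.sq_sqrt (hnn v)]
    have h1 : G m (r⁻¹ • v) (r⁻¹ • v) = 1 := by
      simp only [map_smul, ContinuousLinearMap.smul_apply, smul_eq_mul]
      rw [← hr2]
      field_simp
    have hrv : r • (r⁻¹ • v) = v := by
      rw [smul_smul, mul_inv_cancel₀ hr.ne', one_smul]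
    have key : ∀ w, Real.sin r ^ 2 * G m w w ≤
        r ^ 2 * G (ex (m, v)) (dE ex m v w) (dE ex m v w) := by
      intro w
      have h3 := (xlo G ex hG hS hE m hm (r⁻¹ • v) w h1 r hr hv).2
      have h4 : Jf ex m (r⁻¹ • v) w r = r • dE ex m v w := by
        rw [Jf, hrv, dE, map_smul, dE]
      rw [h4, hrv] at h3
      simp only [map_smul, ContinuousLinearMap.smul_apply, smul_eq_mul] at h3
      nlinarith
    refine ⟨key, hfin _ fun w hw => ?_⟩
    by_contra hw0
    have h5 := key w
    have h6 : dE ex m v w = 0 := hw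
    rw [h6] at h5
    simp only [map_zero, mul_zero] at h5
    have h7 : 0 < Real.sin r := Real.sin_pos_of_pos_of_lt_pi hr hv
    have h8 : 0 < Real.sin r ^ 2 * G m w w := mul_pos (by positivity) (hpos w hw0)
    linarith

end Pool.Agent.ZRT.H26
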