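import Pool.Agent.ZRT.StmtsA
import Pool.Agent.Helper62_ZRT.XB1

/-!
# ZRT, row XHA (helper26): second derivative of `½|y|²`
-/

set_option autoImplicit false

noncomputable section

open scoped ContDiff Topology RealInnerProductSpace
open Set MeasureTheory

namespace Pool.Agent.ZRT.H26

open Pool.Agent.RF Pool.Agent.MVS Pool.Agent.ZRT

theorem xha (xga : XgaStatement) : XhaStatement := by
  intro G ex hG hE m hm I y hI hy hgeo s hs
  have hyC : ∀ r ∈ I, ContDiffAt ℝ ∞ y r := fun r hr => (hy r hr).contDiffAt (hI.mem_nhds hr)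
  have hyD : ∀ r ∈ I, HasDerivAt y (deriv y r) r := fun r hr =>
    ((hyC r hr).differentiableAt (by simp)).hasDerivAt
  have hyD2 : HasDerivAt (deriv y) (deriv (deriv y) s) s := by
    have h1 : ContDiffOn ℝ ∞ (deriv y) I := hy.deriv_of_isOpen hI (by simp)
    exact ((h1 s hs).contDiffAt (hI.mem_nhds hs)).differentiableAt (by simp) |>.hasDerivAt
  have hc : ∀ r ∈ I, HasDerivAt (fun r => ex (m, y r)) (dE ex m (y r) (deriv y r)) r :=
    fun r hr => H62.hasD_ex hE hm (hyD r hr)
  have hcd : deriv (fun r => ex (m, y r)) =ᶠ[𝓝 s] fun r => dE ex m (y r) (deriv y r) := by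
    filter_upwards [hI.mem_nhds hs] with r hr
    exact (hc r hr).deriv
  have hV := H62.hasD_dE hE hm (hyD s hs) (hyD s hs)
  have hW0 := H62.hasD_dE hE hm (hyD s hs) hyD2
  have hW1 : HasDerivAt (deriv (fun r => ex (m, y r)))
      (deriv (deriv (fun r => ex (m, y r))) s) s :=
    (hW0.congr_of_eventuallyEq hcd).differentiableAt.hasDerivAt
  rw [hgeo s hs] at hW1
  have hxs : ex (m, y s) ∈ Om (Fin 5) := hE.mem m hm _
  have h1 := H62.mco (Fin 5) G (Om (Fin 5)) hG.metric _ _ _ _ _ _ s hxs (hc s hs) hV hW1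
  have hds : deriv (fun r => ex (m, y r)) s = dE ex m (y s) (deriv y s) := (hc s hs).deriv
  rw [hds, neg_add_cancel, map_zero, add_zero] at h1
  have hJ : Jf ex m (y s) (deriv y s) 1 = dE ex m (y s) (deriv y s) := by
    rw [Jf, one_smul, one_smul]
  have hDJ : DJf G ex m (y s) (deriv y s) 1 =
      fderiv ℝ (fderiv ℝ (fun u : E5 => ex (m, u))) (y s) (deriv y s) (y s)
        + dE ex m (y s) (deriv y s)
        + chris G (ex (m, y s)) (dE ex m (y s) (deriv y s)) (dE ex m (y s) (y s)) := by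
    have h2 := (H62.hasD_dE hE hm (H62.hasD_line (y s) 1) (H62.hasD_line (deriv y s) 1)).deriv
    have h3 : deriv (Jf ex m (y s) (deriv y s)) 1 =
        fderiv ℝ (fderiv ℝ (fun u : E5 => ex (m, u))) (y s) (y s) (deriv y s)
          + dE ex m (y s) (deriv y s) := by
      rw [one_smul, one_smul] at h2
      exact h2
    rw [DJf, h3, hJ, one_smul, Tf, one_smul, H62.sym_dE hE hm (y s) (y s) (deriv y s),
      H5.chr_comm chrStatement hG.metric hxs (dE ex m (y s) (y s)) (dE ex m (y s) (deriv y s))]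
  rw [hDJ, hJ]
  refine h1.congr_of_eventuallyEq ?_
  filter_upwards [hcd] with r hr
  rw [hr]
  exact (xga G ex hG hE m hm (y r) (deriv y r)).symm

end Pool.Agent.ZRT.H26
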