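import Pool.Agent.ZRT.StmtsA

/-!
# ZRT, row XHB (helper26): lower bound for `G(DJ, J)(1)`
-/

set_option autoImplicit false

noncomputable section

open scoped ContDiff Topology RealInnerProductSpace
open Set MeasureTheory

namespace Pool.Agent.ZRT.H26

open Pool.Agent.RF Pool.Agent.MVS Pool.Agent.ZRT

theorem xhb (xb1 : Xb1Statement) (xfb : XfbStatement) (xlo : XloStatement) : XhbStatement := by
  intro G ex hG hS hE m hm v w hr hv
  obtain ⟨-, -, -, -, h5, -⟩ := xb1 G ex hG hE m hm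
  have hsymm := hG.metric.symm
  have hpos := hG.metric.pos m hm
  have hnn : ∀ w, 0 ≤ G m w w := by
    intro w
    by_cases hw : w = 0
    · rw [hw]; simp
    · exact (hpos w hw).le
  obtain ⟨r, hrd⟩ : ∃ r : ℝ, r = nm G m v := ⟨_, rfl⟩
  rw [← hrd] at hr hv ⊢
  have hr2 : r ^ 2 = G m v v := by
    rw [hrd, nm, Real.sq_sqrt (hnn v)]
  obtain ⟨u, hu⟩ : ∃ u : E5, u = r⁻¹ • v := ⟨_, rfl⟩
  have hru : r • u = v := by
    rw [hu, smul_smul, mul_inv_cancel₀ hr.ne', one_smul]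
  have huu : G m u u = 1 := by
    rw [hu]
    simp only [map_smul, ContinuousLinearMap.smul_apply, smul_eq_mul]
    rw [← hr2]
    field_simp
  obtain ⟨a, ha⟩ : ∃ a : ℝ, a = G m v w / r := ⟨_, rfl⟩
  have hau : G m u w = a := by
    rw [ha, hu]
    simp only [map_smul, ContinuousLinearMap.smul_apply, smul_eq_mul]
    field_simp
  rw [← ha]
  obtain ⟨w1, hw1⟩ : ∃ w1 : E5, w1 = w - a • u := ⟨_, rfl⟩
  have hw : w = a • u + w1 := by rw [hw1]; abel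
  have huw1 : G m u w1 = 0 := by
    rw [hw1, map_sub, map_smul, hau, huu, smul_eq_mul, mul_one, sub_self]
  -- facts on the fields along `u` at time `r`
  obtain ⟨-, -, f3, f4, f5, f6, f7, f8, -, -, -⟩ := xfb G ex hG hE m hm u (a • u) w1 r a
  obtain ⟨-, -, -, g4, -, g6, g7, g8, -, -, -⟩ := xfb G ex hG hE m hm u u w1 r a
  obtain ⟨-, -, -, -, -, -, -, -, k9, k10, -⟩ := xfb G ex hG hE m hm u w1 w1 r a
  obtain ⟨-, -, -, -, -, -, -, -, -, -, s⟩ := xfb G ex hG hE m hm u w w 1 r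
  obtain ⟨s1, s2⟩ := s hr.ne'
  rw [mul_one, hru] at s1 s2
  have hx : ex (m, r • u) = ex (m, v) := by rw [hru]
  have hxO : ex (m, v) ∈ Om (Fin 5) := hE.mem m hm v
  have hTT : G (ex (m, v)) (Tf ex m u r) (Tf ex m u r) = 1 := by
    rw [← hx, h5, huu]
  have hlo := (xlo G ex hG hS hE m hm u w1 huu r hr hv).1
  rw [hx] at hlo k9 k10
  rw [huw1, mul_zero] at k9
  rw [huw1] at k10
  obtain ⟨T, hT⟩ : ∃ T : E5, T = Tf ex m u r := ⟨_, rfl⟩
  obtain ⟨J, hJ⟩ : ∃ J : E5, J = Jf ex m u w1 r := ⟨_, rfl⟩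
  obtain ⟨D, hD⟩ : ∃ D : E5, D = DJf G ex m u w1 r := ⟨_, rfl⟩
  have hJw : Jf ex m u w r = (a * r) • T + J := by
    rw [hw, f3, hJ, g4, g7, hT, smul_smul]
  have hDw : DJf G ex m u w r = a • T + D := by
    rw [hw, f5, hD, g6, g8, hT]
  rw [← hT] at hTT k9 k10
  rw [← hJ] at k9 hlo
  rw [← hD] at k10 hlo
  have hdE : dE ex m v w = r⁻¹ • ((a * r) • T + J) := by
    rw [← hJw, ← s1, Jf, one_smul, one_smul]
  have hD' : G (ex (m, v)) D T = 0 := by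
    rw [hsymm _ hxO]; exact k10
  have hJ' : G (ex (m, v)) J T = 0 := by
    rw [hsymm _ hxO]; exact k9
  rw [s1, s2, hJw, hDw, hdE]
  simp only [map_add, map_smul, ContinuousLinearMap.add_apply, ContinuousLinearMap.smul_apply,
    smul_eq_mul, hTT, k9, hD', hJ']
  have hri : r⁻¹ * r = 1 := inv_mul_cancel₀ hr.ne'
  obtain ⟨Q, hQ⟩ : ∃ Q : ℝ, Q = G (ex (m, v)) J J := ⟨_, rfl⟩
  obtain ⟨P, hP⟩ : ∃ P : ℝ, P = G (ex (m, v)) D J := ⟨_, rfl⟩
  rw [← hQ, ← hP] at hlo ⊢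
  have e1 : a ^ 2 + r * Real.cot r *
      (r⁻¹ * (r⁻¹ * (a * r * (a * r * 1 + 0) + (a * r * 0 + Q))) - a ^ 2) =
      a ^ 2 + r⁻¹ * (Real.cot r * Q) := by
    field_simp
    ring
  have e2 : r⁻¹ * (a * (a * r * 1 + 0) + (a * r * 0 + P)) = a ^ 2 + r⁻¹ * P := by
    field_simp
    ring
  have e3 : r⁻¹ * (Real.cot r * Q) ≤ r⁻¹ * P := mul_le_mul_of_nonneg_left hlo (by positivity)
  nlinarith [e1, e2, e3]

end Pool.Agent.ZRT.H26
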