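import Pool.Agent.Helper26_MVS.All
import Pool.Agent.Helper62_ZRT.XB1
import Pool.Agent.Helper62_ZRT.XGA
import Pool.Agent.Helper29_ZRT.XSH
import Pool.Agent.Helper40_ZRT.XIS
import Pool.Agent.Helper41_ZRT.XNM
import Pool.Agent.Helper41_ZRT.XLO
import Pool.Agent.Helper68_ZRT.XFL
import Pool.Agent.Helper68_ZRT.CSH
import Pool.Agent.Helper24_ZRT.XFB
import Pool.Agent.Helper9_ZRT.RNB
import Pool.Agent.Helper87_ZRT.XUP
import Pool.Agent.Helper26_ZRT.XDE
import Pool.Agent.Helper19_ZRT.XPO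
import Pool.Agent.Helper26_ZRT.XHA
import Pool.Agent.Helper26_ZRT.XHB
import Pool.Agent.Helper80_ZRT.XHC
import Pool.Agent.Helper11_ZRT.PSI
import Pool.Agent.Helper55_ZRT.CYP
import Pool.Agent.Helper55_ZRT.YPW
import Pool.Agent.Helper51_ZRT.VLP
import Pool.Agent.Helper70_ZRT.ISP
import Pool.Agent.Helper81_ZRT.YB2
import Pool.Agent.Helper81_ZRT.YRO
import Pool.Agent.Helper74_ZRT.YB4
import Pool.Agent.Helper39_ZRT.YB5
import Pool.Agent.Helper46_ZRT.YDI
import Pool.Agent.Helper26_ZRT.YLB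
import Pool.Agent.Helper26_ZRT.FIN

/-!
# ZRT: assembly of part A (MP_33f2b9_gt)
-/

namespace Pool.Agent.ZRT.H26

open Pool.Agent.MVS Pool.Agent.ZRT Pool.Agent.MVS.H26

theorem xb1_ : Xb1Statement := H62.xb1
theorem xsh_ : XshStatement := H29.xsh xb1_
theorem xis_ : XisStatement := H40.xis
theorem xga_ : XgaStatement := H62.xga
theorem xnm_ : XnmStatement := H41.xnm xb1_ xga_
theorem xfl_ : XflStatement := H68.xfl xb1_ mco_ jeq_
theorem xfb_ : XfbStatement := H24.xfb xb1_ xga_ xfl_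
theorem rnb_zrt : RnbStatement := H9.rnb
theorem csh_ : CshStatement := H68.csh
theorem xlo_ : XloStatement := H41.xlo xb1_ xfl_ xfb_
theorem xup_ : XupStatement := H87.xup xb1_ xfl_ xfb_ rnb_zrt csh_
theorem xpo_ : XpoStatement := H19.xpo xb1_ xfb_ xup_
theorem xde_ : XdeStatement := xde xb1_ xlo_
theorem xha_ : XhaStatement := xha xga_
theorem xhb_ : XhbStatement := xhb xb1_ xfb_ xlo_
theorem xhc_ : XhcStatement := H80.xhc xb1_ xha_ xhb_
theorem psi_ : PsiStatement := H11.psi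
theorem cyp_ : CypStatement := H55.cyp
theorem vlp_ : VlpStatement := H51.vlp
theorem isp_ : IspStatement := H70.isp
theorem yb2_ : Yb2Statement := H81.yb2 par_
theorem yb4_ : Yb4Statement := H74.yb4
theorem yb5_ : Yb5Statement := H39.yb5
theorem yro_ : YroStatement := H81.yro
theorem ypw_ : YpwStatement := H55.ypw
theorem ydi_ : YdiStatement := H46.ydi

theorem ylb_ (main : MainStatement) (hvol : VolStatement) : YlbStatement :=
  ylb yb2_ yb4_ yb5_ psi_ cyp_ vlp_ isp_ main hvol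

theorem fin_ (main : MainStatement) (hvol : VolStatement) : FinStatement :=
  fin (ylb_ main hvol) yro_ ypw_ ydi_

end Pool.Agent.ZRT.H26
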