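import Pool.Agent.Helper26_ZRT.CH2
import Pool.Agent.Helper62_ZRT.XB1

/-!
# ZRT, row CH1 (helper26): the arc at half radius
-/

set_option autoImplicit false

noncomputable section

open scoped ContDiff Topology RealInnerProductSpace
open Set MeasureTheory

namespace Pool.Agent.ZRT.H26

open Pool.Agent.RF Pool.Agent.MVS Pool.Agent.ZRT

variable {G : E5 → Bil E5} {ex : E5 × E5 → E5}

theorem sinh_bound {x : ℝ} (hx : x ≤ 63 / 40) : Real.sinh x ≤ 2.325 := by
  have h1 : Real.exp x ≤ 4.85 := by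
    have h2 : Real.exp x ≤ Real.exp (63 / 40) := Real.exp_le_exp.2 hx
    have h3 : Real.exp (63 / 40) ^ 40 = Real.exp 1 ^ 63 := by
      rw [← Real.exp_nat_mul, ← Real.exp_nat_mul]
      norm_num
    have h4 : Real.exp 1 ≤ 2.7183 := by
      have := Real.exp_one_lt_d9
      linarith
    have h5 : Real.exp 1 ^ 63 ≤ (2.7183 : ℝ) ^ 63 := pow_le_pow_left₀ (Real.exp_pos _).le h4 63
    have h6 : (2.7183 : ℝ) ^ 63 ≤ 4.85 ^ 40 := by norm_num
    have h7 : Real.exp (63 / 40) ≤ 4.85 := by
      by_contra hc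
      push Not at hc
      have h8 : (4.85 : ℝ) ^ 40 < Real.exp (63 / 40) ^ 40 :=
        pow_lt_pow_left₀ hc (by norm_num) (by norm_num)
      linarith
    exact h2.trans h7
  have h2 : 0 < Real.exp x := Real.exp_pos x
  rw [Real.sinh_eq, Real.exp_neg]
  have h3 : (4.85 : ℝ)⁻¹ ≤ (Real.exp x)⁻¹ := inv_anti₀ h2 h1
  have h4 : (0.2 : ℝ) ≤ (4.85 : ℝ)⁻¹ := by norm_num
  linarith

theorem un_hasDeriv (u n : E5) (w s : ℝ) : HasDerivAt (fun s : ℝ => Un u n (s * w))
    (w • (-Real.sin (s * w) • u + Real.cos (s * w) • n)) s := by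
  have h0 : HasDerivAt (fun s : ℝ => s * w) w s := by
    simpa using (hasDerivAt_id s).mul_const w
  have h1 := (h0.cos).smul_const u
  have h2 := (h0.sin).smul_const n
  refine (h1.add h2).congr_deriv ?_
  rw [smul_add, smul_smul, smul_smul]
  congr 2 <;> ring

theorem ch1 (xb1 : Xb1Statement) (xpo : XpoStatement) (lex : LexStatement) : Ch1Statement := by
  intro G ex p q u n L w hC
  have hG : IsCyl G := hC.geo.cyl
  have hS : SecLe G := hC.geo.sec
  have hE : IsExp G ex := hC.geo.exp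
  have hp : p ∈ Om (Fin 5) := hC.hp
  obtain ⟨m, hm⟩ : ∃ m : E5, m = ex (p, (L / 2) • u) := ⟨_, rfl⟩
  have hmO : m ∈ Om (Fin 5) := by rw [hm]; exact hE.mem p hp _
  rw [← hm]
  have hpi := Real.pi_gt_three
  have hLpi := hC.Lpi
  have hL0 := hC.L0
  have hpi4 := Real.pi_lt_d2
  have hw0 := hC.w0
  have hw1 := hC.w1
  have hsym : G p u n = G p n u := hG.metric.symm p hp u n
  have hun : Un u n (0 * w) = u := by
    rw [zero_mul, Un, Real.cos_zero, Real.sin_zero, one_smul, zero_smul, add_zero]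
  have hU : ∀ s : ℝ, G p (Un u n (s * w)) (Un u n (s * w)) = 1 := fun s =>
    un_unit hsym hC.uu hC.nn hC.un (s * w)
  have hnu : G p n u = 0 := by rw [← hsym]; exact hC.un
  have hN : ∀ s : ℝ, G p (-Real.sin (s * w) • u + Real.cos (s * w) • n)
      (-Real.sin (s * w) • u + Real.cos (s * w) • n) = 1 := by
    intro s
    simp only [map_add, map_smul, ContinuousLinearMap.add_apply, ContinuousLinearMap.smul_apply,
      smul_eq_mul, hC.uu, hC.nn, hC.un, hnu]
    have := Real.sin_sq_add_cos_sq (s * w)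
    nlinarith
  have hUN : ∀ s : ℝ, G p (Un u n (s * w))
      (-Real.sin (s * w) • u + Real.cos (s * w) • n) = 0 := by
    intro s
    simp only [Un, map_add, map_smul, ContinuousLinearMap.add_apply,
      ContinuousLinearMap.smul_apply, smul_eq_mul, hC.uu, hC.nn, hC.un, hnu]
    ring
  have hspeed : Speed G (fun s => ex (p, (L / 2) • Un u n (s * w))) (93 / 100) := by
    refine ⟨fun s => dE ex p ((L / 2) • Un u n (s * w))
      ((L / 2) • (w • (-Real.sin (s * w) • u + Real.cos (s * w) • n))), fun s _ => ⟨?_, ?_⟩⟩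
    · exact (H62.hasD_ex hE hp ((un_hasDeriv u n w s).const_smul (L / 2))).hasDerivWithinAt
    · have h1 := xpo G ex hC.geo p hp (Un u n (s * w))
        (-Real.sin (s * w) • u + Real.cos (s * w) • n) (hU s) (hN s) (hUN s) (L / 2) 0 w
        (by linarith)
      rw [zero_smul, zero_add] at h1
      beta_reduce
      rw [smul_smul]
      have h2 : Real.sinh (L / 2) ≤ 2.325 := sinh_bound (by linarith)
      have h3 : 0 ≤ Real.sinh (L / 2) := Real.sinh_nonneg_iff.2 (by linarith)
      rw [nm, Real.sqrt_le_left (by norm_num)]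
      refine h1.trans ?_
      have h4 : Real.sinh (L / 2) * w ≤ 93 / 100 := by nlinarith
      have h5 : 0 ≤ Real.sinh (L / 2) * w := by positivity
      nlinarith
  obtain ⟨y, hy1, hy2, hy3⟩ := lex G ex hG hS hE m hmO
    (fun s => ex (p, (L / 2) • Un u n (s * w))) 0 (93 / 100) (by norm_num) hspeed
    (by rw [hE.zero m hmO, hun, hm]) (by
      have h0 : nm G m 0 = 0 := by simp [nm]
      rw [h0]
      linarith)
  refine ⟨y, hy1, hy2, fun s hs => ?_⟩
  have h0 : nm G m 0 = 0 := by simp [nm]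
  have h1 := hy3 s hs
  rw [h0] at h1
  have := hs.2
  linarith

end Pool.Agent.ZRT.H26
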