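import Pool.Agent.ZRT.StmtsB

/-!
# ZRT, row CH2 (helper26): the lifted family
-/

set_option autoImplicit false

noncomputable section

open scoped ContDiff Topology RealInnerProductSpace
open Set MeasureTheory

namespace Pool.Agent.ZRT.H26

open Pool.Agent.RF Pool.Agent.MVS Pool.Agent.ZRT

variable {G : E5 → Bil E5} {ex : E5 × E5 → E5}

theorem nm_smul (x v : E5) (c : ℝ) : nm G x (c • v) = |c| * nm G x v := by
  have h : G x (c • v) (c • v) = c ^ 2 * G x v v := by
    simp only [map_smul, ContinuousLinearMap.smul_apply, smul_eq_mul]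
    ring
  rw [nm, nm, h, Real.sqrt_mul (sq_nonneg c), Real.sqrt_sq_eq_abs]

theorem un_unit {p u n : E5} (hs : G p u n = G p n u) (uu : G p u u = 1) (nn : G p n n = 1)
    (un : G p u n = 0) (θ : ℝ) : G p (Un u n θ) (Un u n θ) = 1 := by
  have h1 : G p n u = 0 := by rw [← hs]; exact un
  simp only [Un, map_add, map_smul, ContinuousLinearMap.add_apply, ContinuousLinearMap.smul_apply,
    smul_eq_mul, uu, nn, un, h1]
  have := Real.sin_sq_add_cos_sq θ
  nlinarith

theorem un_cont (u n : E5) : Continuous (Un u n) := by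
  unfold Un
  fun_prop

/-- the geodesics with affine parameter -/
theorem speed_aff (xb1 : Xb1Statement) (hG : IsCyl G) (hE : IsExp G ex) {p : E5}
    (hp : p ∈ Om (Fin 5)) {U : E5} (hU : G p U U = 1) (α β : ℝ) :
    Speed G (fun τ : ℝ => ex (p, (α * τ + β) • U)) |α| := by
  obtain ⟨-, -, h3, -, h5, -⟩ := xb1 G ex hG hE p hp
  refine ⟨fun τ => α • Tf ex p U (α * τ + β), fun τ _ => ⟨?_, ?_⟩⟩
  · have h1 : HasDerivAt (fun τ : ℝ => α * τ + β) α τ := by
      simpa using ((hasDerivAt_id τ).const_mul α).add_const β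
    exact ((h3 U (α * τ + β)).scomp τ h1).hasDerivWithinAt
  · change nm G (ex (p, (α * τ + β) • U)) (α • Tf ex p U (α * τ + β)) ≤ |α|
    rw [nm_smul, nm, h5, hU, Real.sqrt_one, mul_one]

theorem ch2 (xb1 : Xb1Statement) (xsh : XshStatement) (lex : LexStatement) (ltp : LtpStatement)
    (lun : LunStatement) (ch1 : Ch1Statement) : Ch2Statement := by
  intro G ex p q u n L w hC
  obtain ⟨a, ha, ha0, han⟩ := ch1 G ex p q u n L w hC
  have hG : IsCyl G := hC.geo.cyl
  have hS : SecLe G := hC.geo.sec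
  have hE : IsExp G ex := hC.geo.exp
  have hp : p ∈ Om (Fin 5) := hC.hp
  obtain ⟨m, hm⟩ : ∃ m : E5, m = ex (p, (L / 2) • u) := ⟨_, rfl⟩
  have hmO : m ∈ Om (Fin 5) := by rw [hm]; exact hE.mem p hp _
  obtain ⟨v0, hv0⟩ : ∃ v0 : E5, v0 = Tf ex p u (L / 2) := ⟨_, rfl⟩
  rw [← hm] at ha han
  have hpi := Real.pi_gt_three
  have hLpi := hC.Lpi
  have hL0 := hC.L0
  have hpi4 := Real.pi_lt_four
  have hsym : G p u n = G p n u := hG.metric.symm p hp u n
  have hU : ∀ s : ℝ, G p (Un u n (s * w)) (Un u n (s * w)) = 1 := fun s =>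
    un_unit hsym hC.uu hC.nn hC.un (s * w)
  have hv0n : nm G m v0 = 1 := by
    obtain ⟨-, -, -, -, h5, -⟩ := xb1 G ex hG hE p hp
    rw [nm, hv0, hm, h5, hC.uu, Real.sqrt_one]
  -- the two halves
  have half : ∀ ε : ℝ, |ε| = 1 → ∃ K : ℝ → ℝ → E5,
      (∀ s ∈ Icc (0 : ℝ) 1,
        IsLift G ex m (fun τ => ex (p, (ε * (L / 2) * τ + L / 2) • Un u n (s * w))) (K s)) ∧
      (∀ s ∈ Icc (0 : ℝ) 1, K s 0 = a s) ∧
      ContinuousOn (fun x : ℝ × ℝ => K x.1 x.2) (Icc 0 1 ×ˢ Icc 0 1) := by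
    intro ε hε
    have habs : |ε * (L / 2)| = L / 2 := by
      rw [abs_mul, hε, one_mul, abs_of_pos (by linarith)]
    have h1 : ∀ s : ℝ, ∃ y : ℝ → E5, s ∈ Icc (0 : ℝ) 1 →
        IsLift G ex m (fun τ => ex (p, (ε * (L / 2) * τ + L / 2) • Un u n (s * w))) y ∧
          y 0 = a s := by
      intro s
      by_cases hs : s ∈ Icc (0 : ℝ) 1
      · have h2 := speed_aff xb1 hG hE hp (hU s) (ε * (L / 2)) (L / 2)
        rw [habs] at h2
        obtain ⟨y, hy1, hy2, -⟩ := lex G ex hG hS hE m hmO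
          (fun τ => ex (p, (ε * (L / 2) * τ + L / 2) • Un u n (s * w))) (a s) (L / 2) (by linarith)
          h2 (by
            have h3 := ha.eq s hs
            rw [h3]
            simp) (by
            have h3 := han s hs
            have h4 : L / 2 < 2 := by linarith
            have h5 : Real.pi / 2 + 93 / 100 < Real.pi := by linarith
            linarith)
        exact ⟨y, fun _ => ⟨hy1, hy2⟩⟩
      · exact ⟨fun _ => 0, fun h => absurd h hs⟩
    choose K hK using h1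
    refine ⟨K, fun s hs => (hK s hs).1, fun s hs => (hK s hs).2, ?_⟩
    refine ltp G ex hG hS hE m hmO
      (fun x => ex (p, (ε * (L / 2) * x.2 + L / 2) • Un u n (x.1 * w))) K ?_
      (fun s hs => (hK s hs).1) ?_
    · obtain ⟨h1, -⟩ := xb1 G ex hG hE p hp
      have h2 : Continuous (fun x : ℝ × ℝ => (ε * (L / 2) * x.2 + L / 2) • Un u n (x.1 * w)) := by
        have := un_cont u n
        fun_prop
      exact (h1.continuous.comp h2).continuousOn
    · exact ha.cont.congr fun s hs => (hK s hs).2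
  obtain ⟨K, hK1, hK2, hK3⟩ := half 1 (by norm_num)
  obtain ⟨K', hK1', hK2', hK3'⟩ := half (-1) (by norm_num)
  classical
  obtain ⟨H, hH⟩ : ∃ H : ℝ → ℝ → E5, H = fun s t =>
    if t ≤ 1 / 2 then K' s (1 - 2 * t) else K s (2 * t - 1) := ⟨_, rfl⟩
  have hHle : ∀ s t : ℝ, t ≤ 1 / 2 → H s t = K' s (1 - 2 * t) := by
    intro s t ht
    rw [hH]
    exact if_pos ht
  have hHge : ∀ s ∈ Icc (0 : ℝ) 1, ∀ t : ℝ, 1 / 2 ≤ t → H s t = K s (2 * t - 1) := by
    intro s hs t ht
    rcases eq_or_lt_of_le ht with h | h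
    · rw [hHle s t h.ge, ← h]
      norm_num
      rw [hK2 s hs, hK2' s hs]
    · rw [hH]
      exact if_neg (not_le.2 h)
  have hHeq : ∀ s ∈ Icc (0 : ℝ) 1, ∀ t ∈ Icc (0 : ℝ) 1,
      nm G m (H s t) < Real.pi ∧ ex (m, H s t) = ex (p, (t * L) • Un u n (s * w)) := by
    intro s hs t ht
    rcases le_total t (1 / 2) with h | h
    · have h1 : 1 - 2 * t ∈ Icc (0 : ℝ) 1 := ⟨by linarith, by linarith [ht.1]⟩
      rw [hHle s t h]
      refine ⟨(hK1' s hs).lt _ h1, ?_⟩
      rw [(hK1' s hs).eq _ h1]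
      change ex (p, (-1 * (L / 2) * (1 - 2 * t) + L / 2) • Un u n (s * w)) = _
      congr 3
      ring
    · have h1 : 2 * t - 1 ∈ Icc (0 : ℝ) 1 := ⟨by linarith, by linarith [ht.2]⟩
      rw [hHge s hs t h]
      refine ⟨(hK1 s hs).lt _ h1, ?_⟩
      rw [(hK1 s hs).eq _ h1]
      change ex (p, (1 * (L / 2) * (2 * t - 1) + L / 2) • Un u n (s * w)) = _
      congr 3
      ring
  have hcont : ContinuousOn (fun x : ℝ × ℝ => H x.1 x.2) (Icc 0 1 ×ˢ Icc 0 1) := by
    have hsplit : (Icc 0 1 ×ˢ Icc 0 1 : Set (ℝ × ℝ)) =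
        (Icc 0 1 ×ˢ Icc 0 (1 / 2)) ∪ (Icc 0 1 ×ˢ Icc (1 / 2) 1) := by
      rw [← Set.prod_union, Icc_union_Icc_eq_Icc (by norm_num) (by norm_num)]
    rw [hsplit]
    refine ContinuousOn.union_of_isClosed ?_ ?_ (isClosed_Icc.prod isClosed_Icc)
      (isClosed_Icc.prod isClosed_Icc)
    · have h1 : ContinuousOn (fun x : ℝ × ℝ => K' x.1 (1 - 2 * x.2)) (Icc 0 1 ×ˢ Icc 0 (1 / 2)) := by
        have h2 : Continuous (fun x : ℝ × ℝ => ((x.1, 1 - 2 * x.2) : ℝ × ℝ)) := by fun_prop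
        refine hK3'.comp h2.continuousOn ?_
        rintro ⟨s, t⟩ ⟨h3, h4⟩
        exact ⟨h3, by
          have := h4.1
          have := h4.2
          constructor <;> simp only at * <;> linarith⟩
      exact h1.congr fun x hx => hHle _ _ hx.2.2
    · have h1 : ContinuousOn (fun x : ℝ × ℝ => K x.1 (2 * x.2 - 1)) (Icc 0 1 ×ˢ Icc (1 / 2) 1) := by
        have h2 : Continuous (fun x : ℝ × ℝ => ((x.1, 2 * x.2 - 1) : ℝ × ℝ)) := by fun_prop
        refine hK3.comp h2.continuousOn ?_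
        rintro ⟨s, t⟩ ⟨h3, h4⟩
        exact ⟨h3, by
          have := h4.1
          have := h4.2
          constructor <;> simp only at * <;> linarith⟩
      exact h1.congr fun x hx => hHge _ hx.1 _ hx.2.1
  have h00 : (0 : ℝ) ∈ Icc (0 : ℝ) 1 := ⟨le_refl _, by norm_num⟩
  have hun0 : Un u n (0 * w) = u := by
    rw [zero_mul, Un, Real.cos_zero, Real.sin_zero, one_smul, zero_smul, add_zero]
  have hzero : ∀ t ∈ Icc (0 : ℝ) 1, H 0 t = ((t - 1 / 2) * L) • v0 := by
    refine lun G ex hG hS hE m hmO (fun t => ex (p, (t * L) • u)) (H 0)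
      (fun t => ((t - 1 / 2) * L) • v0) ⟨?_, ?_, ?_⟩ ⟨?_, ?_, ?_⟩ ⟨1 / 2, ⟨by norm_num, by norm_num⟩, ?_⟩
    · exact hcont.comp (Continuous.continuousOn (f := fun t : ℝ => ((0, t) : ℝ × ℝ)) (by fun_prop))
        fun t ht => ⟨h00, ht⟩
    · exact fun t ht => (hHeq 0 h00 t ht).1
    · intro t ht
      have := (hHeq 0 h00 t ht).2
      rw [hun0] at this
      exact this
    · exact Continuous.continuousOn (by fun_prop)
    · intro t ht
      rw [nm_smul, hv0n, mul_one, abs_mul, abs_of_pos hL0]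
      have h1 : |t - 1 / 2| ≤ 1 := by
        rw [abs_le]
        constructor <;> linarith [ht.1, ht.2]
      nlinarith
    · intro t ht
      have h1 := (xsh G ex hG hE p hp u (L / 2) ((t - 1 / 2) * L)).1
      rw [hm, hv0, h1]
      congr 3
      ring
    · rw [hHle 0 (1 / 2) (le_refl _)]
      norm_num
      rw [hK2' 0 h00, ha0]
  refine ⟨H, ⟨hcont, ?_, ?_, ?_, ?_⟩⟩
  · intro s hs t ht
    rw [← hm]
    exact (hHeq s hs t ht).1
  · intro s hs t ht
    rw [← hm]
    exact (hHeq s hs t ht).2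
  · intro t ht
    rw [← hv0]
    exact hzero t ht
  · intro s hs
    rw [← hv0]
    have h1 : H s 0 = H 0 0 := by
      refine lun G ex hG hS hE m hmO (fun _ => p) (fun s => H s 0) (fun _ => H 0 0) ⟨?_, ?_, ?_⟩
        ⟨?_, ?_, ?_⟩ ⟨0, h00, rfl⟩ s hs
      · exact hcont.comp (Continuous.continuousOn (f := fun t : ℝ => ((t, 0) : ℝ × ℝ))
          (by fun_prop)) fun t ht => ⟨ht, h00⟩
      · exact fun t ht => (hHeq t ht 0 h00).1
      · intro t ht
        rw [(hHeq t ht 0 h00).2, zero_mul, zero_smul, hE.zero p hp]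
      · exact continuousOn_const
      · exact fun t _ => (hHeq 0 h00 0 h00).1
      · intro t _
        rw [(hHeq 0 h00 0 h00).2, zero_mul, zero_smul, hE.zero p hp]
    rw [h1, hzero 0 h00]
    congr 1
    ring

end Pool.Agent.ZRT.H26
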