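import Pool.Agent.Helper35_ZRT.All
import Pool.Agent.Helper39_ZRT.YB5

/-!
# ZRT (helper26): Theorem Z for families of isometries

Every nonzero tangent vector at the two fixed points is rotated by an angle in `(0, 2/5]` by some
element of a family of isometries which fix both points.
-/

noncomputable section

open scoped ContDiff Topology RealInnerProductSpace
open Set MeasureTheory

namespace Pool.Agent.ZRT.H26

open Pool.Agent.ZRT Pool.Agent.RF Pool.Agent.MVS Pool.Agent.SecondKind Pool.Agent.MinVolSphere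
open Pool.Agent.ZRT.H35

/-- every nonzero tangential vector at `p` is rotated by an angle in `(0,θ]` by some element of
`F`; all elements fix `p` -/
def Mov (G : E5 → Bil E5) (F : Set (E5 → E5)) (θ : ℝ) (p : E5) : Prop :=
  ‖p‖ = 1 ∧ (∀ f ∈ F, f p = p) ∧ ∀ v, ⟪p, v⟫ = (0 : ℝ) → v ≠ 0 →
    ∃ f ∈ F, fderiv ℝ f p v ≠ v ∧ Real.cos θ * G p v v ≤ G p v (fderiv ℝ f p v)

theorem om_of_norm {x : E5} (h : ‖x‖ = 1) : x ∈ Om (Fin 5) := by
  intro h0
  rw [h0, norm_zero] at h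
  norm_num at h

theorem maiG (G : E5 → Bil E5) (ex : E5 × E5 → E5) (F : Set (E5 → E5)) (hg : Geo G ex)
    (hF : ∀ f ∈ F, IsIsoC G f) (p q : E5) (hpq : p ≠ q) (hp : Mov G F (2 / 5) p)
    (hq : Mov G F (2 / 5) q) : ¬ Short G ex p q := by
  intro hS
  have hC := hg.cyl
  have hE := hg.exp
  have hpO : p ∈ Om (Fin 5) := om_of_norm hp.1
  have hqO : q ∈ Om (Fin 5) := om_of_norm hq.1
  obtain ⟨a, v, ha, hv0, hvpi, hb, hmin⟩ := mna_ G ex hC hE p hpO q hqO hpq hS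
  have hRa : Mov G F (2 / 5) a := by
    rcases ha with h | h
    · rw [h]; exact hp
    · rw [h]; exact hq
  have haO : a ∈ Om (Fin 5) := om_of_norm hRa.1
  have hRb : Mov G F (2 / 5) (ex (a, v)) := by
    rcases hb with h | h
    · rw [h]; exact hp
    · rw [h]; exact hq
  have hbO : ex (a, v) ∈ Om (Fin 5) := om_of_norm hRb.1
  -- `v` is tangential
  have hav : ⟪a, v⟫ = (0 : ℝ) := by
    have h1 := (xb1_ G ex hC hE a haO).2.2.2.2.2 v
    rw [hRb.1, hRa.1, one_mul, one_pow, div_one] at h1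
    exact Real.exp_eq_one_iff _ |>.mp h1.symm
  have hvne : v ≠ 0 := by
    intro h0
    rw [h0] at hv0
    unfold nm at hv0
    simp at hv0
  have hGv : 0 < G a v v := hC.metric.pos a haO v hvne
  obtain ⟨L, hL⟩ : ∃ L, L = nm G a v := ⟨_, rfl⟩
  have hL0 : 0 < L := by rw [hL]; exact hv0
  have hL2 : G a v v = L ^ 2 := by
    rw [hL]
    unfold nm
    rw [Real.sq_sqrt hGv.le]
  obtain ⟨u, hu⟩ : ∃ u, u = L⁻¹ • v := ⟨_, rfl⟩
  have hLu : L • u = v := by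
    rw [hu, smul_smul, mul_inv_cancel₀ hL0.ne', one_smul]
  have huu : G a u u = 1 := by
    rw [hu]
    simp only [map_smul, ContinuousLinearMap.smul_apply, smul_eq_mul]
    rw [hL2]
    field_simp
  have hau : ⟪a, u⟫ = (0 : ℝ) := by
    rw [hu, inner_smul_right, hav, mul_zero]
  have hune : u ≠ 0 := by
    intro h0
    rw [h0] at huu
    simp at huu
  obtain ⟨f, hfF, hAne, hcos⟩ := hRa.2.2 u hau hune
  have hf := hF f hfF
  have hfa := hRa.2.1 f hfF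
  have hfb := hRb.2.1 f hfF
  obtain ⟨z, hz⟩ : ∃ z, z = fderiv ℝ f a u := ⟨_, rfl⟩
  have hzz : G a z z = 1 := by
    have h1 := hf.pres a haO u u
    rw [hfa, huu] at h1
    rw [hz]
    exact h1
  rw [huu, mul_one, ← hz] at hcos
  rw [← hz] at hAne
  have hsym : G a z u = G a u z := hC.metric.symm a haO _ _
  obtain ⟨c, hc⟩ : ∃ c, c = G a u z := ⟨_, rfl⟩
  have hc1 : c < 1 := by
    have h1 := hC.metric.pos a haO (z - u) (sub_ne_zero.mpr hAne)
    simp only [map_sub, ContinuousLinearMap.sub_apply] at h1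
    rw [hsym, huu, hzz, ← hc] at h1
    linarith
  have hpi := Real.pi_gt_three
  have hcm : -1 ≤ c := by
    rw [hc]
    exact le_trans (Real.neg_one_le_cos _) hcos
  obtain ⟨w, hw⟩ : ∃ w, w = Real.arccos c := ⟨_, rfl⟩
  have hcw : Real.cos w = c := by rw [hw]; exact Real.cos_arccos hcm hc1.le
  have hw0 : 0 < w := by rw [hw]; exact Real.arccos_pos.mpr hc1
  have hw1 : w ≤ 2 / 5 := by
    have h1 : Real.arccos (Real.cos (2 / 5)) = 2 / 5 :=
      Real.arccos_cos (by norm_num) (by linarith)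
    rw [hw, ← h1]
    exact Real.arccos_le_arccos (by rw [hc]; exact hcos)
  have hsin : 0 < Real.sin w := Real.sin_pos_of_pos_of_lt_pi hw0 (by linarith)
  have hs2 : Real.sin w ^ 2 = 1 - c ^ 2 := by
    rw [← hcw]
    have := Real.sin_sq_add_cos_sq w
    linarith
  obtain ⟨n, hn⟩ : ∃ n, n = (Real.sin w)⁻¹ • (z - c • u) := ⟨_, rfl⟩
  have hzU : z = Un u n w := by
    unfold Un
    rw [hn, smul_smul, mul_inv_cancel₀ hsin.ne', one_smul, hcw]
    abel
  have hun : G a u n = 0 := by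
    rw [hn]
    simp only [map_smul, map_sub, smul_eq_mul]
    rw [huu, ← hc]
    ring
  have hnn : G a n n = 1 := by
    rw [hn]
    simp only [map_smul, map_sub, ContinuousLinearMap.smul_apply, ContinuousLinearMap.sub_apply,
      smul_eq_mul]
    rw [huu, hsym, hzz, ← hc]
    have h2 : (Real.sin w)⁻¹ * ((Real.sin w)⁻¹ * (1 - c * c) - c * ((Real.sin w)⁻¹ * (c - c * 1))) =
        (1 - c ^ 2) / Real.sin w ^ 2 := by
      field_simp
      ring
    rw [h2, hs2]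
    exact div_self (by rw [← hs2]; positivity)
  have hstop : ex (a, L • Un u n w) = ex (a, v) := by
    have h1 := xis_ G ex f hC hE hf a haO v
    rw [hfb, hfa] at h1
    have h2 : fderiv ℝ f a v = L • z := by
      rw [← hLu, map_smul, hz]
    rw [h2, hzU] at h1
    exact h1.symm
  refine cor_ G ex a (ex (a, v)) u n L w
    ⟨hg, haO, hbO, huu, hnn, hun, hL0, by rw [hL]; exact hvpi, hw0, hw1, by rw [hLu], hstop, ?_⟩
  intro y hy hlt
  by_contra hne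
  have hy0 : 0 < nm G (ex (a, v)) y := Real.sqrt_pos.mpr (hC.metric.pos _ hbO y hne)
  have h1 := hmin (ex (a, v)) y hb hy0 (by rw [hy]; exact hb)
  rw [← hL] at h1
  linarith

/-- conjugation by a diffeomorphism -/
theorem conj (G : E5 → Bil E5) (Ψ Ψ' : E5 → E5) (hG : IsCyl G) (hD : IsDif Ψ Ψ')
    (F : Set (E5 → E5)) (hF : ∀ f ∈ F, IsIsoC G f) (θ : ℝ) (a : E5) (ha : Mov G F θ (Ψ a)) :
    Mov (pullb G Ψ) ((fun f : E5 → E5 => fun x => Ψ' (f (Ψ x))) '' F) θ a := by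
  have hΨm : ∀ x ∈ Om (Fin 5), Ψ x ∈ Om (Fin 5) := fun x hx => H70.mem_of_norm (hD.norm x) hx
  have hΨm' : ∀ x ∈ Om (Fin 5), Ψ' x ∈ Om (Fin 5) := fun x hx =>
    H70.mem_of_norm (hD.norm' x) hx
  obtain ⟨h1, h2, h3⟩ := ha
  have ha1 : ‖a‖ = 1 := by rw [← hD.norm a]; exact h1
  have ham : a ∈ Om (Fin 5) := om_of_norm ha1
  have hfa : ∀ f ∈ F, Ψ' (f (Ψ a)) = a := fun f hf => by rw [h2 f hf, hD.left a ham]
  have inj : ∀ v : E5, fderiv ℝ Ψ a v = 0 → v = 0 := by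
    intro v hv
    have e : (fun y => Ψ' (Ψ y)) =ᶠ[𝓝 a] fun y => y := by
      filter_upwards [H70.open_Om.mem_nhds ham] with y hy
      exact hD.left y hy
    have e1 := e.fderiv_eq (𝕜 := ℝ)
    have d3 : DifferentiableAt ℝ Ψ' (Ψ a) := H70.dat hD.smooth' (hΨm a ham)
    have d4 : DifferentiableAt ℝ Ψ a := H70.dat hD.smooth ham
    have e3 : fderiv ℝ (fun y => Ψ' (Ψ y)) a = (fderiv ℝ Ψ' (Ψ a)).comp (fderiv ℝ Ψ a) :=
      fderiv_comp a d3 d4
    rw [e3] at e1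
    have := congrArg (fun L : E5 →L[ℝ] E5 => L v) e1
    simp only [ContinuousLinearMap.comp_apply, hv, map_zero] at this
    have h2 : fderiv ℝ (fun y : E5 => y) a v = v := by
      rw [fderiv_fun_id]; rfl
    rw [h2] at this
    exact this.symm
  have inn : ∀ v : E5, ⟪Ψ a, fderiv ℝ Ψ a v⟫ = (⟪a, v⟫ : ℝ) := by
    intro v
    have d4 : DifferentiableAt ℝ Ψ a := H70.dat hD.smooth ham
    have e : (fun y => (⟪Ψ y, Ψ y⟫ : ℝ)) = fun y => (⟪y, y⟫ : ℝ) := by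
      funext y
      rw [real_inner_self_eq_norm_sq, real_inner_self_eq_norm_sq, hD.norm]
    have e1 : HasFDerivAt (fun y => (⟪Ψ y, Ψ y⟫ : ℝ)) _ a := d4.hasFDerivAt.inner ℝ d4.hasFDerivAt
    have e2 : HasFDerivAt (fun y : E5 => (⟪y, y⟫ : ℝ)) _ a :=
      (hasFDerivAt_id a).inner ℝ (hasFDerivAt_id a)
    rw [e] at e1
    have e3 := congrArg (fun L : E5 →L[ℝ] ℝ => L v) (e1.unique e2)
    simp only [ContinuousLinearMap.comp_apply, ContinuousLinearMap.prod_apply,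
      fderivInnerCLM_apply, ContinuousLinearMap.id_apply, id_eq] at e3
    rw [real_inner_comm (Ψ a) (fderiv ℝ Ψ a v), real_inner_comm a v] at e3
    linarith
  refine ⟨ha1, ?_, ?_⟩
  · rintro _ ⟨f, hf, rfl⟩
    exact hfa f hf
  · intro v hv hv0
    obtain ⟨f, hf, h4, h5⟩ := h3 (fderiv ℝ Ψ a v) (by rw [inn v, hv]) (fun h0 => hv0 (inj v h0))
    refine ⟨fun x => Ψ' (f (Ψ x)), ⟨f, hf, rfl⟩, ?_⟩
    have hfm : ∀ x ∈ Om (Fin 5), f x ∈ Om (Fin 5) := fun x hx =>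
      H70.mem_of_norm ((hF f hf).norm x) hx
    have hsm : ContDiffOn ℝ ∞ (fun x : E5 => Ψ' (f (Ψ x))) (Om (Fin 5)) :=
      (H70.isp G Ψ Ψ' f θ hG hD (hF f hf)).1.smooth
    have e : (fun y => Ψ (Ψ' (f (Ψ y)))) =ᶠ[𝓝 a] fun y => f (Ψ y) := by
      filter_upwards [H70.open_Om.mem_nhds ham] with y hy
      exact hD.right _ (hfm _ (hΨm y hy))
    have e1 := e.fderiv_eq (𝕜 := ℝ)
    have d1 : DifferentiableAt ℝ Ψ (Ψ' (f (Ψ a))) :=
      H70.dat hD.smooth (by rw [hfa f hf]; exact ham)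
    have d2 : DifferentiableAt ℝ (fun x => Ψ' (f (Ψ x))) a := H70.dat hsm ham
    have d3 : DifferentiableAt ℝ f (Ψ a) := H70.dat (hF f hf).smooth (hΨm a ham)
    have d4 : DifferentiableAt ℝ Ψ a := H70.dat hD.smooth ham
    have e2 : fderiv ℝ (fun y => Ψ (Ψ' (f (Ψ y)))) a =
        (fderiv ℝ Ψ (Ψ' (f (Ψ a)))).comp (fderiv ℝ (fun x : E5 => Ψ' (f (Ψ x))) a) :=
      fderiv_comp a d1 d2
    have e3 : fderiv ℝ (fun y => f (Ψ y)) a = (fderiv ℝ f (Ψ a)).comp (fderiv ℝ Ψ a) :=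
      fderiv_comp a d3 d4
    rw [e2, e3, hfa f hf] at e1
    have hk : fderiv ℝ Ψ a (fderiv ℝ (fun x : E5 => Ψ' (f (Ψ x))) a v) =
        fderiv ℝ f (Ψ a) (fderiv ℝ Ψ a v) := by
      have := congrArg (fun L : E5 →L[ℝ] E5 => L v) e1
      simpa using this
    refine ⟨?_, ?_⟩
    · intro h6
      rw [h6] at hk
      exact h4 hk.symm
    · rw [pullb_apply, pullb_apply, hk]
      exact h5

/-- the volume bound for a family -/
theorem bndG (G : E5 → Bil E5) (hG : IsCyl G) (hle : SecLe G) (hge : SecGe G)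
    (F : Set (E5 → E5)) (hF : ∀ f ∈ F, IsIsoC G f) (p q : E5) (hpq : p ≠ q)
    (hp : Mov G F (2 / 5) p) (hq : Mov G F (2 / 5) q) :
    8 * Real.pi ^ 2 / 3 ≤ ∫ x in slab (Fin 5), sd (G x) := by
  obtain ⟨Ψ, Ψ', hΨ, h4, h4'⟩ := H11.psi p q hp.1 hq.1 hpq
  obtain ⟨hG', hle', hge'⟩ := H55.cyp G Ψ Ψ' hG hΨ
  obtain ⟨ex, hex⟩ := Pool.Agent.MVS.H26.exb_ (pullb G Ψ) hG'
  have hgeo : Geo (pullb G Ψ) ex := ⟨hG', hle' hle, hge' hge, hex⟩
  have hns := maiG (pullb G Ψ) ex _ hgeo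
    (by rintro _ ⟨f, hf, rfl⟩; exact (H70.isp G Ψ Ψ' f 0 hG hΨ (hF f hf)).1)
    (eb 4) (-(eb 4)) eb_ne_neg
    (conj G Ψ Ψ' hG hΨ F hF _ _ (by rw [h4]; exact hp))
    (conj G Ψ Ψ' hG hΨ F hF _ _ (by rw [h4']; exact hq))
  have hv := vol (pullb G Ψ) ex hG' (hle' hle) hex hns
  rw [H51.vlp G Ψ Ψ' hG hΨ] at hv
  exact hv

end Pool.Agent.ZRT.H26
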