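import Pool.Agent.Helper67_ZRT.MNZ

/-!
# ZRT, row MNA (helper26): the shortest geodesic between the fixed points
-/

set_option autoImplicit false

noncomputable section

open scoped ContDiff Topology RealInnerProductSpace
open Set Filter

namespace Pool.Agent.ZRT.H26

open Pool.Agent.RF Pool.Agent.MVS Pool.Agent.ZRT

theorem nm_cont (G : E5 → Bil E5) (a : E5) : Continuous fun v : E5 => nm G a v := by
  have hcont : Continuous fun v : E5 => G a v v := (G a).continuous.clm_apply continuous_id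
  exact hcont.sqrt

theorem mna_one (hXb1 : Xb1Statement) (hM : MnzStatement) {G : E5 → Bil E5} {ex : E5 × E5 → E5}
    (hG : IsCyl G) (hE : IsExp G ex) {a : E5} (ha : a ∈ Om (Fin 5)) {b : E5} (hab : a ≠ b)
    (h : ∃ v, 0 < nm G a v ∧ (ex (a, v) = a ∨ ex (a, v) = b)) :
    ∃ v, 0 < nm G a v ∧ (ex (a, v) = a ∨ ex (a, v) = b) ∧
      ∀ y, 0 < nm G a y → (ex (a, y) = a ∨ ex (a, y) = b) → nm G a v ≤ nm G a y := by
  obtain ⟨v1, hv1, hv1'⟩ := h
  obtain ⟨ε, hε, hε'⟩ := hM G ex hG hE a ha b hab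
  obtain ⟨c, hc, hlow⟩ := H67.nm_lower hG ha
  have hcont := (hXb1 G ex hG hE a ha).1.continuous
  have key : ∀ y, 0 < nm G a y → (ex (a, y) = a ∨ ex (a, y) = b) → ε ≤ nm G a y := by
    intro y hy hy'
    by_contra hlt
    push Not at hlt
    obtain ⟨h1, h2⟩ := hε' y hy hlt
    rcases hy' with h3 | h3
    · exact h1 h3
    · exact h2 h3
  obtain ⟨K, hK⟩ : ∃ K : Set E5, K = {v | ε ≤ nm G a v} ∩ ({v | nm G a v ≤ nm G a v1} ∩
      ({v | ex (a, v) = a} ∪ {v | ex (a, v) = b})) := ⟨_, rfl⟩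
  have hKc : IsCompact K := by
    refine (isCompact_closedBall (0 : E5) (nm G a v1 / c)).of_isClosed_subset ?_ ?_
    · rw [hK]
      exact (isClosed_le continuous_const (nm_cont G a)).inter
        ((isClosed_le (nm_cont G a) continuous_const).inter
          ((isClosed_eq hcont continuous_const).union (isClosed_eq hcont continuous_const)))
    · intro v hv
      rw [hK] at hv
      rw [mem_closedBall_zero_iff, le_div_iff₀ hc, mul_comm]
      exact (hlow v).trans hv.2.1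
  have hKn : K.Nonempty := ⟨v1, by rw [hK]; exact ⟨key v1 hv1 hv1', le_refl (nm G a v1), hv1'⟩⟩
  obtain ⟨v, hv, hmin⟩ := hKc.exists_isMinOn hKn (nm_cont G a).continuousOn
  rw [hK] at hv
  refine ⟨v, lt_of_lt_of_le hε hv.1, hv.2.2, fun y hy hy' => ?_⟩
  rcases le_total (nm G a y) (nm G a v1) with h1 | h1
  · have : y ∈ K := by rw [hK]; exact ⟨key y hy hy', h1, hy'⟩
    exact hmin this
  · exact le_trans hv.2.1 h1

theorem mna (hXb1 : Xb1Statement) (hM : MnzStatement) : MnaStatement := by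
  intro G ex hG hE p hp q hq hpq hS
  have one_p := mna_one hXb1 hM hG hE hp hpq
  have one_q : (∃ v, 0 < nm G q v ∧ (ex (q, v) = p ∨ ex (q, v) = q)) →
      ∃ v, 0 < nm G q v ∧ (ex (q, v) = p ∨ ex (q, v) = q) ∧
        ∀ y, 0 < nm G q y → (ex (q, y) = p ∨ ex (q, y) = q) → nm G q v ≤ nm G q y := by
    rintro ⟨v, h1, h2⟩
    obtain ⟨v', h3, h4, h5⟩ := mna_one hXb1 hM hG hE hq hpq.symm ⟨v, h1, h2.symm⟩
    exact ⟨v', h3, h4.symm, fun y hy hy' => h5 y hy hy'.symm⟩
  obtain ⟨a0, v0, ha0, h0, h0pi, h0e⟩ := hS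
  by_cases hP : ∃ v, 0 < nm G p v ∧ (ex (p, v) = p ∨ ex (p, v) = q)
  · obtain ⟨vp, p1, p2, p3⟩ := one_p hP
    by_cases hQ : ∃ v, 0 < nm G q v ∧ (ex (q, v) = p ∨ ex (q, v) = q)
    · obtain ⟨vq, q1, q2, q3⟩ := one_q hQ
      rcases le_total (nm G p vp) (nm G q vq) with h | h
      · have hall : ∀ b y : E5, (b = p ∨ b = q) → 0 < nm G b y →
            (ex (b, y) = p ∨ ex (b, y) = q) → nm G p vp ≤ nm G b y := by
          rintro b y (rfl | rfl) hy hy'
          · exact p3 y hy hy'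
          · exact h.trans (q3 y hy hy')
        exact ⟨p, vp, Or.inl rfl, p1, (hall a0 v0 ha0 h0 h0e).trans_lt h0pi, p2, hall⟩
      · have hall : ∀ b y : E5, (b = p ∨ b = q) → 0 < nm G b y →
            (ex (b, y) = p ∨ ex (b, y) = q) → nm G q vq ≤ nm G b y := by
          rintro b y (rfl | rfl) hy hy'
          · exact h.trans (p3 y hy hy')
          · exact q3 y hy hy'
        exact ⟨q, vq, Or.inr rfl, q1, (hall a0 v0 ha0 h0 h0e).trans_lt h0pi, q2, hall⟩
    · have hall : ∀ b y : E5, (b = p ∨ b = q) → 0 < nm G b y →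
          (ex (b, y) = p ∨ ex (b, y) = q) → nm G p vp ≤ nm G b y := by
        rintro b y (rfl | rfl) hy hy'
        · exact p3 y hy hy'
        · exact absurd ⟨y, hy, hy'⟩ hQ
      exact ⟨p, vp, Or.inl rfl, p1, (hall a0 v0 ha0 h0 h0e).trans_lt h0pi, p2, hall⟩
  · have hQ : ∃ v, 0 < nm G q v ∧ (ex (q, v) = p ∨ ex (q, v) = q) := by
      rcases ha0 with rfl | rfl
      · exact absurd ⟨v0, h0, h0e⟩ hP
      · exact ⟨v0, h0, h0e⟩
    obtain ⟨vq, q1, q2, q3⟩ := one_q hQ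
    have hall : ∀ b y : E5, (b = p ∨ b = q) → 0 < nm G b y →
        (ex (b, y) = p ∨ ex (b, y) = q) → nm G q vq ≤ nm G b y := by
      rintro b y (rfl | rfl) hy hy'
      · exact absurd ⟨y, hy, hy'⟩ hP
      · exact q3 y hy hy'
    exact ⟨q, vq, Or.inr rfl, q1, (hall a0 v0 ha0 h0 h0e).trans_lt h0pi, q2, hall⟩

end Pool.Agent.ZRT.H26
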