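import Pool.Agent.Helper26_ZRT.GRP
import Pool.Agent.Helper26_ZRT.ANG

/-!
# ZRT (helper26): isometries of large order

Theorem Z for an isometry with two fixed points such that no nonzero tangent vector at these points
is fixed by one of the first `256` powers of the derivative.
-/

noncomputable section

open scoped ContDiff Topology RealInnerProductSpace
open Set MeasureTheory

namespace Pool.Agent.MinVolSphere

open Pool.Agent.SecondKind

/-- `p` is a fixed point of `φ` on `S^4`, and `(dφ)^k` fixes no nonzero tangent vector at `p`,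
`0 < k ≤ N` -/
def NoFix (φ : (Fin 5 → ℝ) → Fin 5 → ℝ) (N : ℕ) (p : Fin 5 → ℝ) : Prop :=
  OnSphere p ∧ φ p = p ∧ ∀ k : ℕ, 0 < k → k ≤ N → ∀ v, Tangent p v → v ≠ 0 →
    (fderiv ℝ φ p)^[k] v ≠ v

end Pool.Agent.MinVolSphere

namespace Pool.Agent.ZRT.H26

open Pool.Agent.ZRT Pool.Agent.RF Pool.Agent.MVS Pool.Agent.SecondKind Pool.Agent.MinVolSphere
open Pool.Agent.ZRT.H35

/-- Dirichlet for two angles -/
theorem dir (α β : ℝ) : ∃ k : ℕ, 0 < k ∧ k ≤ 256 ∧ Real.cos (2 / 5) ≤ Real.cos (k * α) ∧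
    Real.cos (2 / 5) ≤ Real.cos (k * β) := by
  let f : ℕ → ℤ × ℤ := fun k =>
    (⌊16 * Int.fract ((k : ℝ) * α / (2 * Real.pi))⌋, ⌊16 * Int.fract ((k : ℝ) * β / (2 * Real.pi))⌋)
  have hmaps : ∀ k ∈ Finset.range 257, f k ∈ (Finset.Ico (0 : ℤ) 16 ×ˢ Finset.Ico (0 : ℤ) 16) := by
    intro k _
    have key : ∀ z : ℝ, ⌊16 * Int.fract z⌋ ∈ Finset.Ico (0 : ℤ) 16 := by
      intro z
      have h1 := Int.fract_nonneg z
      have h2 := Int.fract_lt_one z
      rw [Finset.mem_Ico]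
      constructor
      · exact Int.floor_nonneg.mpr (by linarith)
      · rw [Int.floor_lt]
        push_cast
        linarith
    rw [Finset.mem_product]
    exact ⟨key _, key _⟩
  obtain ⟨k1, hk1, k2, hk2, hne, heq⟩ := Finset.exists_ne_map_eq_of_card_lt_of_maps_to
    (by rw [Finset.card_product]; simp) hmaps
  wlog hlt : k1 < k2 generalizing k1 k2
  · exact this k2 hk2 k1 hk1 hne.symm heq.symm (by omega)
  have hk2' := Finset.mem_range.mp hk2
  refine ⟨k2 - k1, by omega, by omega, ?_⟩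
  have hcast : ((k2 - k1 : ℕ) : ℝ) = (k2 : ℝ) - k1 := by rw [Nat.cast_sub hlt.le]
  have hpi := Real.pi_pos
  have hpi2 : Real.pi < 3.15 := Real.pi_lt_d2
  have key : ∀ γ : ℝ, ⌊16 * Int.fract ((k1 : ℝ) * γ / (2 * Real.pi))⌋ =
      ⌊16 * Int.fract ((k2 : ℝ) * γ / (2 * Real.pi))⌋ →
      Real.cos (2 / 5) ≤ Real.cos ((k2 - k1 : ℕ) * γ) := by
    intro γ h
    set x : ℝ := (k1 : ℝ) * γ / (2 * Real.pi) with hx
    set y : ℝ := (k2 : ℝ) * γ / (2 * Real.pi) with hy
    have hval : ((k2 - k1 : ℕ) : ℝ) * γ =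
        2 * Real.pi * (Int.fract y - Int.fract x) + (⌊y⌋ - ⌊x⌋ : ℤ) * (2 * Real.pi) := by
      have h1 : Int.fract y = y - ⌊y⌋ := rfl
      have h2 : Int.fract x = x - ⌊x⌋ := rfl
      rw [h1, h2, hcast, hx, hy]
      push_cast
      field_simp
      ring
    have hlt16 : |Int.fract y - Int.fract x| < 1 / 16 := by
      have := Int.abs_sub_lt_one_of_floor_eq_floor h
      rw [← mul_sub, abs_mul, abs_sub_comm] at this
      have h16 : |(16 : ℝ)| = 16 := by norm_num
      rw [h16] at this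
      linarith
    rw [hval, Real.cos_add_int_mul_two_pi]
    rw [← Real.cos_abs (2 * Real.pi * (Int.fract y - Int.fract x))]
    have hle : |2 * Real.pi * (Int.fract y - Int.fract x)| ≤ 2 / 5 := by
      rw [abs_mul, abs_of_pos (by positivity : (0 : ℝ) < 2 * Real.pi)]
      have h0 : 0 ≤ |Int.fract y - Int.fract x| := abs_nonneg _
      nlinarith
    exact Real.cos_le_cos_of_nonneg_of_le_pi (abs_nonneg _)
      (by linarith [Real.pi_gt_three]) hle
  have h1 := congrArg Prod.fst heq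
  have h2 := congrArg Prod.snd heq
  exact ⟨key α h1, key β h2⟩

/-- iterates of an isometry -/
theorem iso_iter {G : E5 → Bil E5} {f : E5 → E5} (hf : IsIsoC G f) (k : ℕ) :
    IsIsoC G f^[k] := by
  induction k with
  | zero =>
    refine ⟨contDiffOn_id, fun x => rfl, fun c _ x _ => rfl, ?_⟩
    intro x _ v w
    rw [Function.iterate_zero, fderiv_id]
    rfl
  | succ k ih =>
    have hfm : ∀ x ∈ Om (Fin 5), f x ∈ Om (Fin 5) := fun x hx => H70.mem_of_norm (hf.norm x) hx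
    refine ⟨?_, ?_, ?_, ?_⟩
    · rw [Function.iterate_succ]
      exact ih.smooth.comp hf.smooth hfm
    · intro x
      rw [Function.iterate_succ_apply, ih.norm, hf.norm]
    · intro c hc x hx
      rw [Function.iterate_succ_apply, Function.iterate_succ_apply, hf.hom c hc x hx,
        ih.hom c hc _ (hfm x hx)]
    · intro x hx v w
      have d1 : DifferentiableAt ℝ f^[k] (f x) := H70.dat ih.smooth (hfm x hx)
      have d2 : DifferentiableAt ℝ f x := H70.dat hf.smooth hx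
      have e : fderiv ℝ f^[k + 1] x = (fderiv ℝ f^[k] (f x)).comp (fderiv ℝ f x) := by
        rw [Function.iterate_succ]
        exact fderiv_comp x d1 d2
      rw [e, Function.iterate_succ_apply]
      rw [ContinuousLinearMap.comp_apply, ContinuousLinearMap.comp_apply,
        ih.pres (f x) (hfm x hx), hf.pres x hx]

/-- a power of the isometry rotates by a small angle -/
theorem small {G : E5 → Bil E5} (hG : IsCyl G) {f : E5 → E5} (hf : IsIsoC G f) (p : E5)
    (hp : ‖p‖ = 1) (hfp : f p = p)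
    (hno : ∀ k : ℕ, 0 < k → k ≤ 256 → ∀ v, ⟪p, v⟫ = (0 : ℝ) → v ≠ 0 →
      (fderiv ℝ f p)^[k] v ≠ v) :
    ∃ k : ℕ, 0 < k ∧ k ≤ 256 ∧ ∀ v, ⟪p, v⟫ = (0 : ℝ) → v ≠ 0 →
      fderiv ℝ f^[k] p v ≠ v ∧ Real.cos (2 / 5) * G p v v ≤ G p v (fderiv ℝ f^[k] p v) := by
  have hpO : p ∈ Om (Fin 5) := om_of_norm hp
  have hp0 : p ≠ 0 := hpO
  let D : E5 →L[ℝ] E5 := fderiv ℝ f p
  have hD : HasFDerivAt f D p := (H70.dat hf.smooth hpO).hasFDerivAt
  have hDk : ∀ k : ℕ, fderiv ℝ f^[k] p = D ^ k := fun k => (hD.iterate hfp k).fderiv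
  have hpow : ∀ (k : ℕ) (v : E5), (D ^ k) v = (⇑D)^[k] v := by
    intro k v
    rw [← FunLike.coe_pow_eq_iterate]
  -- the tangent space
  let V : Submodule ℝ E5 := (ℝ ∙ p)ᗮ
  have hV : ∀ v : E5, v ∈ V ↔ ⟪p, v⟫ = (0 : ℝ) := fun v =>
    Submodule.mem_orthogonal_singleton_iff_inner_right
  have hDV : ∀ v ∈ V, D v ∈ V := by
    intro v hv
    rw [hV] at hv ⊢
    have := H39.inner_fderiv hf p hpO v
    rw [hfp] at this
    rw [← hv, ← this]
  have hfin : Module.finrank ℝ V = 4 := by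
    have : Fact (Module.finrank ℝ E5 = 4 + 1) := ⟨by simp⟩
    exact Submodule.finrank_orthogonal_span_singleton hp0
  let A : V →ₗ[ℝ] V := (D : E5 →ₗ[ℝ] E5).restrict hDV
  have hAv : ∀ v : V, ((A v : V) : E5) = D v := fun v => rfl
  have hAk : ∀ (k : ℕ) (v : V), (((A ^ k) v : V) : E5) = (⇑D)^[k] v := by
    intro k
    induction k with
    | zero => intro v; rfl
    | succ k ih =>
      intro v
      rw [pow_succ, Module.End.mul_apply, ih (A v), hAv, Function.iterate_succ_apply]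
  let B : V →ₗ[ℝ] V →ₗ[ℝ] ℝ := LinearMap.mk₂ ℝ (fun v w : V => G p (v : E5) (w : E5))
    (fun v v' w => by simp) (fun c v w => by simp) (fun v w w' => by simp)
    (fun c v w => by simp)
  have hB : ∀ v w : V, B v w = G p (v : E5) (w : E5) := fun v w => rfl
  obtain ⟨α, β, hab⟩ := angles hfin B
    (fun v w => hG.metric.symm p hpO _ _)
    (fun v hv => hG.metric.pos p hpO _ (fun h => hv (Subtype.ext h)))
    A (fun v w => by
      have := hf.pres p hpO (v : E5) (w : E5)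
      rw [hfp] at this
      exact this)
    (fun v hv h => by
      have h2 := hno 2 (by norm_num) (by norm_num) (v : E5) ((hV _).mp v.2)
        (fun h => hv (Subtype.ext h))
      apply h2
      have h3 := congrArg (fun x : V => (x : E5)) h
      exact h3)
  obtain ⟨k, hk0, hk, hc1, hc2⟩ := dir α β
  refine ⟨k, hk0, hk, fun v hv hv0 => ?_⟩
  rw [hDk k, hpow]
  refine ⟨hno k hk0 hk v hv hv0, ?_⟩
  have h1 := hab k ⟨v, (hV v).mpr hv⟩
  rw [hB, hB, hAk] at h1
  have hpos : 0 < G p v v := hG.metric.pos p hpO v hv0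
  calc Real.cos (2 / 5) * G p v v ≤ min (Real.cos (k * α)) (Real.cos (k * β)) * G p v v :=
        mul_le_mul_of_nonneg_right (le_min hc1 hc2) hpos.le
    _ ≤ G p v ((⇑D)^[k] v) := h1

/-- ORD.  An isometry of `S^4` with `|K| ≤ 1` with two fixed points such that `(dφ)^k`,
`0 < k ≤ 256`, fixes no nonzero tangent vector at these points: the volume is at least `8π²/3`. -/
theorem ord (g : Form 4) (φ : (Fin 5 → ℝ) → Fin 5 → ℝ) (p q : Fin 5 → ℝ) (hg : IsMetric g)
    (hK : AbsSecLeOne g) (hφ : IsIso g φ) (hpq : p ≠ q) (hp : NoFix φ 256 p)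
    (hq : NoFix φ 256 q) : 8 * Real.pi ^ 2 / 3 ≤ Pool.Agent.MinVolSphere.vol g := by
  obtain ⟨G, hG, hGg⟩ := Pool.Agent.MVS.H26.br1_ g hg
  obtain ⟨hle, hge⟩ := H81.yb2 Pool.Agent.MVS.H26.par_ g G hg hG hGg hK
  obtain ⟨f, hf, hf1, hf2⟩ := H74.yb4 g G φ hg hG hGg hφ
  have hne : vc p ≠ vc q := fun h => hpq ((EuclideanSpace.equiv (Fin 5) ℝ).symm.injective h)
  -- transfer of the hypothesis
  have tr : ∀ x, NoFix φ 256 x → f (vc x) = vc x ∧
      ∀ k : ℕ, 0 < k → k ≤ 256 → ∀ v, ⟪vc x, v⟫ = (0 : ℝ) → v ≠ 0 →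
        (fderiv ℝ f (vc x))^[k] v ≠ v := by
    intro x hx
    obtain ⟨hS, hfix, hno⟩ := hx
    have hfx : f (vc x) = vc x := by rw [hf1 x hS, hfix]
    have hxO : vc x ∈ Om (Fin 5) := om_of_norm (norm_vc hS)
    refine ⟨hfx, ?_⟩
    -- tangent vectors
    have htan : ∀ u, Tangent x u → Tangent x (fderiv ℝ φ x u) := by
      intro u hu
      have h1 := H39.inner_fderiv hf (vc x) hxO (vc u)
      rw [hfx, hf2 x u hu, H39.inner_vc, H39.inner_vc] at h1
      exact ⟨hS, by rw [h1]; exact hu.2⟩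
    have hit : ∀ (k : ℕ) (u : Fin 5 → ℝ), Tangent x u →
        (fderiv ℝ f (vc x))^[k] (vc u) = vc ((fderiv ℝ φ x)^[k] u) := by
      intro k
      induction k with
      | zero => intro u _; rfl
      | succ k ih =>
        intro u hu
        rw [Function.iterate_succ_apply, Function.iterate_succ_apply, hf2 x u hu,
          ih _ (htan u hu)]
    intro k hk0 hk v hv hv0 h
    obtain ⟨u, rfl⟩ : ∃ u : Fin 5 → ℝ, v = vc u := ⟨fun i => v i, (H39.vc_surj v).symm⟩
    rw [H39.inner_vc] at hv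
    have hT : Tangent x u := ⟨hS, hv⟩
    rw [hit k u hT] at h
    refine hno k hk0 hk u hT ?_ (H39.vc_inj h)
    intro h0
    apply hv0
    rw [h0]
    ext i
    rfl
  obtain ⟨hfp, hnp⟩ := tr p hp
  obtain ⟨hfq, hnq⟩ := tr q hq
  obtain ⟨k, hk0, hk, hkv⟩ := small hG hf (vc p) (norm_vc hp.1) hfp hnp
  obtain ⟨l, hl0, hl, hlv⟩ := small hG hf (vc q) (norm_vc hq.1) hfq hnq
  have hit : ∀ (m : ℕ) (x : E5), f x = x → f^[m] x = x := fun m x hx =>
    Function.iterate_fixed hx m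
  have hb := bndG G hG hle hge {f^[k], f^[l]}
    (by
      rintro h (rfl | rfl)
      · exact iso_iter hf k
      · exact iso_iter hf l)
    (vc p) (vc q) hne
    ⟨norm_vc hp.1, by
      rintro h (rfl | rfl)
      · exact hit k _ hfp
      · exact hit l _ hfp, fun v hv hv0 => ⟨f^[k], Or.inl rfl, hkv v hv hv0⟩⟩
    ⟨norm_vc hq.1, by
      rintro h (rfl | rfl)
      · exact hit k _ hfq
      · exact hit l _ hfq, fun v hv hv0 => ⟨f^[l], Or.inr rfl, hlv v hv hv0⟩⟩
  rw [Pool.Agent.MVS.H26.br3_ g G hg hG hGg] at hb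
  exact hb

end Pool.Agent.ZRT.H26
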