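import Pool.Agent.ZRT.StmtsB

/-!
# ZRT, row STU (helper26): Sturm comparison
-/

set_option autoImplicit false

noncomputable section

open scoped ContDiff Topology RealInnerProductSpace
open Set Filter

namespace Pool.Agent.ZRT.H26

open Pool.Agent.RF Pool.Agent.MVS Pool.Agent.ZRT

theorem stu : StuStatement := by
  intro L a b f f' f'' hL hLpi ha hab hb hf hd h1 h2
  obtain ⟨k, hk⟩ : ∃ k : ℝ → ℝ, k = fun t => Real.cos (L * (t - 1 / 2)) := ⟨_, rfl⟩
  obtain ⟨k', hk'⟩ : ∃ k' : ℝ → ℝ, k' = fun t => -(L * Real.sin (L * (t - 1 / 2))) := ⟨_, rfl⟩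
  have hlin : ∀ t : ℝ, HasDerivAt (fun t : ℝ => L * (t - 1 / 2)) L t := by
    intro t
    have h := ((hasDerivAt_id t).sub_const (1 / 2 : ℝ)).const_mul L
    rw [mul_one] at h
    exact h
  have hkd : ∀ t, HasDerivAt k (k' t) t := by
    intro t
    rw [hk, hk']
    refine (hlin t).cos.congr_deriv ?_
    ring
  have hkd' : ∀ t, HasDerivAt k' (-L ^ 2 * k t) t := by
    intro t
    rw [hk, hk']
    refine (((hlin t).sin.const_mul L).neg).congr_deriv ?_
    ring
  have hkpos : ∀ t ∈ Icc a b, 0 < k t := by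
    intro t ht
    rw [hk]
    refine Real.cos_pos_of_mem_Ioo ⟨?_, ?_⟩
    · have : -(1 / 2) ≤ t - 1 / 2 := by linarith [ht.1]
      nlinarith
    · have : t - 1 / 2 ≤ 1 / 2 := by linarith [ht.2]
      nlinarith
  have hka : k a ≤ f a := by rw [hk]; exact h1
  have hkb : k b ≤ f b := by rw [hk]; exact h2
  have haI : a ∈ Icc a b := ⟨le_refl _, hab.le⟩
  have hbI : b ∈ Icc a b := ⟨hab.le, le_refl _⟩
  intro t ht
  by_contra hlt
  push Not at hlt
  have hkcont : Continuous k := continuous_iff_continuousAt.2 fun t => (hkd t).continuousAt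
  have hcont : ContinuousOn (fun t => f t / k t) (Icc a b) :=
    hf.div hkcont.continuousOn fun t ht => (hkpos t ht).ne'
  obtain ⟨t0, ht0, hmin⟩ := isCompact_Icc.exists_isMinOn ⟨a, haI⟩ hcont
  have hlt1 : f t0 / k t0 < 1 := by
    refine lt_of_le_of_lt (hmin ht) ?_
    rw [div_lt_one (hkpos t ht), hk]
    exact hlt
  have hne_a : t0 ≠ a := by
    rintro rfl
    rw [div_lt_one (hkpos _ ht0)] at hlt1
    linarith
  have hne_b : t0 ≠ b := by
    rintro rfl
    rw [div_lt_one (hkpos _ ht0)] at hlt1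
    linarith
  have ht0' : t0 ∈ Ioo a b :=
    ⟨lt_of_le_of_ne ht0.1 (Ne.symm hne_a), lt_of_le_of_ne ht0.2 hne_b⟩
  have hh : ∀ t ∈ Ioo a b, HasDerivAt (fun t => f t / k t)
      ((f' t * k t - f t * k' t) / k t ^ 2) t := fun t ht =>
    (hd t ht).1.div (hkd t) (hkpos t ⟨ht.1.le, ht.2.le⟩).ne'
  have hloc : IsLocalMin (fun t => f t / k t) t0 :=
    hmin.isLocalMin (Icc_mem_nhds ht0'.1 ht0'.2)
  have hz := hloc.hasDerivAt_eq_zero (hh t0 ht0')
  have hz' : f' t0 * k t0 - f t0 * k' t0 = 0 := by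
    rw [div_eq_zero_iff] at hz
    rcases hz with h | h
    · exact h
    · exact absurd h (pow_pos (hkpos t0 ht0) 2).ne'
  have hg : ∀ t ∈ Ioo a b, HasDerivAt (fun t => f' t * k t - f t * k' t)
      (f'' t * k t + L ^ 2 * f t * k t) t := by
    intro t ht
    refine (((hd t ht).2.1.mul (hkd t)).sub ((hd t ht).1.mul (hkd' t))).congr_deriv ?_
    ring
  have hanti : AntitoneOn (fun t => f' t * k t - f t * k' t) (Ioo a b) := by
    refine antitoneOn_of_deriv_nonpos (convex_Ioo a b)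
      (fun t ht => (hg t ht).continuousAt.continuousWithinAt) ?_ ?_
    · rw [interior_Ioo]
      exact fun t ht => (hg t ht).differentiableAt.differentiableWithinAt
    · rw [interior_Ioo]
      intro t ht
      rw [(hg t ht).deriv]
      have h3 := (hd t ht).2.2
      have h4 := hkpos t ⟨ht.1.le, ht.2.le⟩
      nlinarith
  have hanti2 : AntitoneOn (fun t => f t / k t) (Icc t0 b) := by
    refine antitoneOn_of_deriv_nonpos (convex_Icc t0 b)
      (hcont.mono (Icc_subset_Icc ht0'.1.le (le_refl b))) ?_ ?_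
    · rw [interior_Icc]
      exact fun t ht => (hh t ⟨ht0'.1.trans ht.1, ht.2⟩).differentiableAt.differentiableWithinAt
    · rw [interior_Icc]
      intro t ht
      have ht' : t ∈ Ioo a b := ⟨ht0'.1.trans ht.1, ht.2⟩
      rw [(hh t ht').deriv]
      have h3 := hanti ht0' ht' ht.1.le
      simp only [hz'] at h3
      exact div_nonpos_of_nonpos_of_nonneg h3 (sq_nonneg _)
  have h5 := hanti2 ⟨le_refl _, ht0'.2.le⟩ ⟨ht0'.2.le, le_refl _⟩ ht0'.2.le
  have h6 : 1 ≤ f b / k b := by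
    rw [one_le_div (hkpos b hbI)]
    exact hkb
  simp only at h5
  linarith

end Pool.Agent.ZRT.H26
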