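import Pool.Agent.ZRT.StmtsA
import Pool.Agent.Helper26_MVS.All

/-!
# ZRT, row YLB (helper26): the lower bound in official form
-/

noncomputable section

open scoped ContDiff Topology RealInnerProductSpace
open Set MeasureTheory

namespace Pool.Agent.ZRT.H26

open Pool.Agent.RF Pool.Agent.MVS Pool.Agent.ZRT Pool.Agent.SecondKind Pool.Agent.MinVolSphere

theorem norm_vc {x : Fin 5 → ℝ} (h : OnSphere x) : ‖vc x‖ = 1 := by
  have h1 : ‖vc x‖ ^ 2 = 1 := by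
    rw [EuclideanSpace.norm_sq_eq]
    have h2 : ∑ i, x i ^ 2 = 1 := h
    rw [← h2]
    refine Finset.sum_congr rfl fun i _ => ?_
    rw [Real.norm_eq_abs, sq_abs]
    rfl
  have h2 : 0 ≤ ‖vc x‖ := norm_nonneg _
  nlinarith

theorem eb_ne_neg : (eb 4 : E5) ≠ -(eb 4) := by
  intro h
  have h1 := congrArg (fun x : E5 => x 4) h
  simp only [eb, PiLp.neg_apply, PiLp.single_apply, if_true] at h1
  norm_num at h1

theorem ylb (yb2 : Yb2Statement) (yb4 : Yb4Statement) (yb5 : Yb5Statement) (psi : PsiStatement)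
    (cyp : CypStatement) (vlp : VlpStatement) (isp : IspStatement) (main : MainStatement)
    (hvol : VolStatement) : YlbStatement := by
  intro g φ p q hg hK hφ hpq hp hq
  obtain ⟨G, hG, hGg⟩ := Pool.Agent.MVS.H26.br1_ g hg
  obtain ⟨hle, hge⟩ := yb2 g G hg hG hGg hK
  obtain ⟨f, hf, hf1, hf2⟩ := yb4 g G φ hg hG hGg hφ
  have hp' : RotFixC G f (2 / 5) (vc p) := yb5 g G φ f (2 / 5) p hg hG hGg hφ hf hf1 hf2 hp
  have hq' : RotFixC G f (2 / 5) (vc q) := yb5 g G φ f (2 / 5) q hg hG hGg hφ hf hf1 hf2 hq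
  have hne : vc p ≠ vc q := fun h => hpq ((EuclideanSpace.equiv (Fin 5) ℝ).symm.injective h)
  obtain ⟨Ψ, Ψ', hΨ, h4, h4'⟩ := psi (vc p) (vc q) (norm_vc hp.1) (norm_vc hq.1) hne
  obtain ⟨hG', hle', hge'⟩ := cyp G Ψ Ψ' hG hΨ
  obtain ⟨hf', hfix⟩ := isp G Ψ Ψ' f (2 / 5) hG hΨ hf
  obtain ⟨ex, hex⟩ := Pool.Agent.MVS.H26.exb_ (pullb G Ψ) hG'
  have hgeo : Geo (pullb G Ψ) ex := ⟨hG', hle' hle, hge' hge, hex⟩
  have hns := main (pullb G Ψ) ex _ hgeo hf' (eb 4) (-(eb 4)) eb_ne_neg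
    (hfix _ (by rw [h4]; exact hp')) (hfix _ (by rw [h4']; exact hq'))
  have hv := hvol (pullb G Ψ) ex hG' (hle' hle) hex hns
  rw [vlp G Ψ Ψ' hG hΨ, Pool.Agent.MVS.H26.br3_ g G hg hG hGg] at hv
  exact hv

end Pool.Agent.ZRT.H26
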